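import Mathlib

/-!
Helper lemmas for the thin-film extinction profile problem: monotonicity from the sign of the
derivative, also up to a one-sided limit.
-/

set_option autoImplicit false

namespace Pool.Agent.Lib.ThinFilm

open Set Filter Topology

lemma lt_of_deriv_pos {f f' : ℝ → ℝ} {x y : ℝ} (hxy : x < y) (hc : ContinuousOn f (Icc x y))
    (hd : ∀ z ∈ Ioo x y, HasDerivAt f (f' z) z) (hp : ∀ z ∈ Ioo x y, 0 < f' z) :
    f x < f y := by
  obtain ⟨c, hc1, hc2⟩ := exists_hasDerivAt_eq_slope f f' hxy hc hd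
  have h := hp c hc1
  rw [hc2] at h
  have h2 := (div_pos_iff_of_pos_right (sub_pos.mpr hxy)).mp h
  linarith

lemma le_of_deriv_nonneg {f f' : ℝ → ℝ} {x y : ℝ} (hxy : x ≤ y)
    (hc : ContinuousOn f (Icc x y))
    (hd : ∀ z ∈ Ioo x y, HasDerivAt f (f' z) z) (hp : ∀ z ∈ Ioo x y, 0 ≤ f' z) :
    f x ≤ f y := by
  rcases hxy.eq_or_lt with h | h
  · rw [h]
  obtain ⟨c, hc1, hc2⟩ := exists_hasDerivAt_eq_slope f f' h hc hd
  have h1 := hp c hc1
  rw [hc2] at h1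
  have h2 : 0 < y - x := sub_pos.mpr h
  have h3 : 0 ≤ f y - f x := by
    have := mul_nonneg h1 h2.le
    rwa [div_mul_cancel₀ _ h2.ne'] at this
  linarith

lemma le_lim {f f' : ℝ → ℝ} {c β L : ℝ} (hd : ∀ z ∈ Ioo c β, HasDerivAt f (f' z) z)
    (hp : ∀ z ∈ Ioo c β, 0 ≤ f' z) (hl : Tendsto f (𝓝[<] β) (𝓝 L)) :
    ∀ z ∈ Ioo c β, f z ≤ L := by
  intro z hz
  apply ge_of_tendsto hl
  have hm : Ioo z β ∈ 𝓝[<] β := Ioo_mem_nhdsLT hz.2
  filter_upwards [hm] with y hy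
  refine le_of_deriv_nonneg (f' := f') hy.1.le ?_ ?_ ?_
  · intro w hw
    exact (hd w ⟨hz.1.trans_le hw.1, hw.2.trans_lt hy.2⟩).continuousAt.continuousWithinAt
  · intro w hw
    exact hd w ⟨hz.1.trans hw.1, hw.2.trans hy.2⟩
  · intro w hw
    exact hp w ⟨hz.1.trans hw.1, hw.2.trans hy.2⟩

lemma lt_lim {f f' : ℝ → ℝ} {c β L : ℝ} (hd : ∀ z ∈ Ioo c β, HasDerivAt f (f' z) z)
    (hp : ∀ z ∈ Ioo c β, 0 < f' z) (hl : Tendsto f (𝓝[<] β) (𝓝 L)) :
    ∀ z ∈ Ioo c β, f z < L := by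
  intro z hz
  have hm : z < (z + β) / 2 ∧ (z + β) / 2 < β := by
    constructor <;> linarith [hz.2]
  have h1 : f ((z + β) / 2) ≤ L :=
    le_lim hd (fun w hw => (hp w hw).le) hl _ ⟨hz.1.trans hm.1, hm.2⟩
  have h2 : f z < f ((z + β) / 2) := by
    refine lt_of_deriv_pos (f' := f') hm.1 ?_ ?_ ?_
    · intro w hw
      exact (hd w ⟨hz.1.trans_le hw.1, hw.2.trans_lt hm.2⟩).continuousAt.continuousWithinAt
    · intro w hw
      exact hd w ⟨hz.1.trans hw.1, hw.2.trans hm.2⟩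
    · intro w hw
      exact hp w ⟨hz.1.trans hw.1, hw.2.trans hm.2⟩
  linarith

lemma ge_lim {f f' : ℝ → ℝ} {c β L : ℝ} (hd : ∀ z ∈ Ioo c β, HasDerivAt f (f' z) z)
    (hp : ∀ z ∈ Ioo c β, f' z ≤ 0) (hl : Tendsto f (𝓝[<] β) (𝓝 L)) :
    ∀ z ∈ Ioo c β, L ≤ f z := by
  intro z hz
  have h := le_lim (f := fun z => - f z) (f' := fun z => - f' z) (L := -L)
    (fun w hw => (hd w hw).neg) (fun w hw => by have := hp w hw; linarith) hl.neg z hz
  linarith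

lemma gt_lim {f f' : ℝ → ℝ} {c β L : ℝ} (hd : ∀ z ∈ Ioo c β, HasDerivAt f (f' z) z)
    (hp : ∀ z ∈ Ioo c β, f' z < 0) (hl : Tendsto f (𝓝[<] β) (𝓝 L)) :
    ∀ z ∈ Ioo c β, L < f z := by
  intro z hz
  have h := lt_lim (f := fun z => - f z) (f' := fun z => - f' z) (L := -L)
    (fun w hw => (hd w hw).neg) (fun w hw => by have := hp w hw; linarith) hl.neg z hz
  linarith

end Pool.Agent.Lib.ThinFilm
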