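import Pool.Agent.Lib.MP_98503b_an.Lyapunov

/-!
At the right end `β` of a component of the positivity set, `g' < 0` near `β` and the Lyapunov
function tends to `0`.
-/

set_option autoImplicit false

namespace Pool.Agent.Lib.ThinFilm

open Set Filter Topology

variable {α β : ℝ} {g g1 g2 g3 : ℝ → ℝ}

lemma Comp.contact (h : Comp α β g g1 g2 g3) :
    ∃ za, α < za ∧ za < β ∧ (∀ z ∈ Ioo za β, g1 z < 0) ∧
      Tendsto (LL g g1 g2 g3) (𝓝[<] β) (𝓝 0) := by
  have hβ := h.hβ
  obtain ⟨c, hc, hcβ, hsm⟩ := h.small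
  have sub : ∀ z ∈ Ioo c β, z ∈ Ioo α β := fun z hz => ⟨hc.trans hz.1, hz.2⟩
  -- `J > 0`
  have hJ : ∀ z ∈ Ioo c β, 0 < g z * g3 z + 3 / 4 * z * g z := by
    refine gt_lim (fun z hz => h.dJ z (sub z hz)) ?_ h.lJ
    intro z hz
    obtain ⟨hp, hs⟩ := hsm z hz
    obtain ⟨ha, _, _⟩ := sqrt_bounds hp hs
    linarith
  have hg3 : ∀ z ∈ Ioo c β, -(3 / 4) * β < g3 z := by
    intro z hz
    have hp := (hsm z hz).1
    have h1 := hJ z hz
    have h2 : 0 < g z * (g3 z + 3 / 4 * z) := by linarith
    have h3 : 0 < g3 z + 3 / 4 * z := (mul_pos_iff_of_pos_left hp).mp h2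
    have := hz.2
    linarith
  -- existence of `za`
  have hex : ∃ za ∈ Ioo c β, 3 / 4 * β * (β - za) < g2 za := by
    by_contra hcon
    push Not at hcon
    exact h.not_flat c hc hcβ hsm hcon
  obtain ⟨za, hza, hza2⟩ := hex
  have suba : ∀ z ∈ Ioo za β, z ∈ Ioo c β := fun z hz => ⟨hza.1.trans hz.1, hz.2⟩
  set δ := g2 za + 3 / 4 * β * za - 3 / 4 * β * β with hδ
  have hδ0 : 0 < δ := by rw [hδ]; linarith
  -- g2 ≥ δ
  have hg2 : ∀ z ∈ Ioo za β, δ ≤ g2 z := by
    intro z hz
    have := lt_of_deriv_pos (f := fun z => g2 z + 3 / 4 * β * z)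
      (f' := fun z => g3 z + 3 / 4 * β) hz.1 ?_ ?_ ?_
    · have h1 : 3 / 4 * β * z ≤ 3 / 4 * β * β := by
        exact mul_le_mul_of_nonneg_left hz.2.le (by positivity)
      linarith
    · intro w hw
      have hw' : w ∈ Ioo c β := ⟨hza.1.trans_le hw.1, hw.2.trans_lt hz.2⟩
      have hcont : ContinuousAt (fun z : ℝ => 3 / 4 * β * z) w := by fun_prop
      exact ((h.d2 w (sub w hw')).continuousAt.add hcont).continuousWithinAt
    · intro w hw
      have hw' : w ∈ Ioo c β := ⟨hza.1.trans hw.1, hw.2.trans hz.2⟩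
      have e := (h.d2 w (sub w hw')).add ((hasDerivAt_id w).const_mul (3 / 4 * β))
      refine e.congr_deriv ?_
      ring
    · intro w hw
      have hw' : w ∈ Ioo c β := ⟨hza.1.trans hw.1, hw.2.trans hz.2⟩
      have := hg3 w hw'
      linarith
  have tend_lin : ∀ k : ℝ, Tendsto (fun z : ℝ => k * (β - z)) (𝓝[<] β) (𝓝 0) := by
    intro k
    have h1 : Continuous (fun z : ℝ => k * (β - z)) := by fun_prop
    have h2 := (h1.tendsto β).mono_left (nhdsWithin_le_nhds (s := Iio β))
    simpa using h2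
  have tend_sq : ∀ k : ℝ, Tendsto (fun z : ℝ => k * (β - z) ^ 2) (𝓝[<] β) (𝓝 0) := by
    intro k
    have h1 : Continuous (fun z : ℝ => k * (β - z) ^ 2) := by fun_prop
    have h2 := (h1.tendsto β).mono_left (nhdsWithin_le_nhds (s := Iio β))
    simpa using h2
  -- g1 ≤ -δ (β - z)
  have hg1 : ∀ z ∈ Ioo za β, g1 z + δ * (β - z) ≤ 0 := by
    refine le_lim (f' := fun z => g2 z - δ) ?_ ?_ ?_
    · intro z hz
      have e := (h.d1 z (sub z (suba z hz))).add (((hasDerivAt_id z).const_sub β).const_mul δ)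
      refine e.congr_deriv ?_
      ring
    · intro z hz
      have := hg2 z hz
      linarith
    · simpa using h.l1.add (tend_lin δ)
  have hg1neg : ∀ z ∈ Ioo za β, g1 z < 0 := by
    intro z hz
    have h1 := hg1 z hz
    have h2 : 0 < δ * (β - z) := mul_pos hδ0 (by linarith [hz.2])
    linarith
  refine ⟨za, hc.trans hza.1, hza.2, hg1neg, ?_⟩
  -- g ≥ δ/2 (β - z)^2
  have hglow : ∀ z ∈ Ioo za β, 0 ≤ g z - δ / 2 * (β - z) ^ 2 := by
    refine ge_lim (f' := fun z => g1 z + δ * (β - z)) ?_ hg1 ?_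
    · intro z hz
      have e := (h.d0 z (sub z (suba z hz))).sub
        ((((hasDerivAt_id z).const_sub β).pow 2).const_mul (δ / 2))
      refine e.congr_deriv ?_
      simp only [id]
      push_cast
      ring
    · simpa using h.l0.sub (tend_sq (δ / 2))
  set κ := √(δ / 2) with hκ
  have hκ0 : 0 < κ := Real.sqrt_pos.mpr (by positivity)
  have hκ2 : κ ^ 2 = δ / 2 := Real.sq_sqrt (by positivity)
  have hslow : ∀ z ∈ Ioo za β, κ * (β - z) ≤ √(g z) := by
    intro z hz
    apply Real.le_sqrt_of_sq_le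
    rw [mul_pow, hκ2]
    have := hglow z hz
    linarith
  -- upper bound on g3
  have hJup : ∀ z ∈ Ioo za β,
      g z * g3 z + 3 / 4 * z * g z ≤ (β - z) * √(g z) := by
    intro z hz
    have key : ∀ w ∈ Ioo za β, z ≤ w → g w ≤ g z := by
      intro w hw hzw
      have := le_of_deriv_nonneg (f := fun y => - g y) (f' := fun y => - g1 y) hzw ?_ ?_ ?_
      · simpa using this
      · intro v hv
        have hv' : v ∈ Ioo za β := ⟨hz.1.trans_le hv.1, hv.2.trans_lt hw.2⟩
        exact (h.d0 v (sub v (suba v hv'))).neg.continuousAt.continuousWithinAt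
      · intro v hv
        have hv' : v ∈ Ioo za β := ⟨hz.1.trans hv.1, hv.2.trans hw.2⟩
        exact (h.d0 v (sub v (suba v hv'))).neg
      · intro v hv
        have hv' : v ∈ Ioo za β := ⟨hz.1.trans hv.1, hv.2.trans hw.2⟩
        have := hg1neg v hv'
        linarith
    -- monotone comparison on `(z, β)`, then continuity at `z`
    set s := √(g z) with hs
    have hbd : ∀ w ∈ Ioo z β, g w * g3 w + 3 / 4 * w * g w - (β - w) * s ≤ 0 := by
      refine le_lim (f' := fun w => 11 / 4 * g w - √(g w) + s) ?_ ?_ ?_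
      · intro w hw
        have hw' : w ∈ Ioo za β := ⟨hz.1.trans hw.1, hw.2⟩
        have e := (h.dJ w (sub w (suba w hw'))).sub
          (((hasDerivAt_id w).const_sub β).mul_const s)
        refine e.congr_deriv ?_
        ring
      · intro w hw
        have hw' : w ∈ Ioo za β := ⟨hz.1.trans hw.1, hw.2⟩
        have h1 : √(g w) ≤ s := Real.sqrt_le_sqrt (key w hw' hw.1.le)
        have h2 := (hsm w (suba w hw')).1
        linarith
      · have h1 : Tendsto (fun w : ℝ => (β - w) * s) (𝓝[<] β) (𝓝 0) := by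
          have := tend_lin s
          simpa [mul_comm] using this
        simpa using h.lJ.sub h1
    have hcont : ContinuousAt
        (fun w => g w * g3 w + 3 / 4 * w * g w - (β - w) * s) z := by
      have h1 := (h.dJ z (sub z (suba z hz))).continuousAt
      have h2 : ContinuousAt (fun w : ℝ => (β - w) * s) z := by fun_prop
      exact h1.sub h2
    have hlim : Tendsto (fun w => g w * g3 w + 3 / 4 * w * g w - (β - w) * s) (𝓝[>] z)
        (𝓝 (g z * g3 z + 3 / 4 * z * g z - (β - z) * s)) :=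
      hcont.tendsto.mono_left nhdsWithin_le_nhds
    have := le_of_tendsto hlim (b := 0) (by
      have hm : Ioo z β ∈ 𝓝[>] z := Ioo_mem_nhdsGT hz.2
      filter_upwards [hm] with w hw
      exact hbd w hw)
    linarith
  have hg3up : ∀ z ∈ Ioo za β, g3 z ≤ 1 / κ := by
    intro z hz
    have hp := (hsm z (suba z hz)).1
    have hsp : 0 < √(g z) := Real.sqrt_pos.mpr hp
    have hsq : g z = √(g z) * √(g z) := (Real.mul_self_sqrt hp.le).symm
    have h1 := hJup z hz
    have h2 := hslow z hz
    have hz0 : 0 ≤ z := by linarith [h.hα, (sub z (suba z hz)).1]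
    have h3 : g z * g3 z ≤ (β - z) * √(g z) := by
      have : 0 ≤ 3 / 4 * z * g z := by positivity
      linarith
    have h4 : √(g z) * g3 z ≤ β - z := by
      have h5 : √(g z) * (√(g z) * g3 z) ≤ √(g z) * (β - z) := by
        calc √(g z) * (√(g z) * g3 z) = g z * g3 z := by rw [← mul_assoc, ← hsq]
          _ ≤ (β - z) * √(g z) := h3
          _ = _ := by ring
      exact le_of_mul_le_mul_left h5 hsp
    by_contra hcon
    push Not at hcon
    have hk : 0 < 1 / κ := by positivity
    have h6 : (β - z) < √(g z) * g3 z := by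
      have hbz : 0 < β - z := by linarith [hz.2]
      calc β - z = (κ * (β - z)) * (1 / κ) := by field_simp
        _ ≤ √(g z) * (1 / κ) := by
            exact mul_le_mul_of_nonneg_right h2 hk.le
        _ < √(g z) * g3 z := by
            exact mul_lt_mul_of_pos_left hcon hsp
    linarith
  -- upper bound on g2
  set B := g2 za + 1 / κ * (β - za) with hB
  have hg2up : ∀ z ∈ Ioo za β, g2 z ≤ B := by
    intro z hz
    have hza' : za ∈ Ioo c β := hza
    have := le_of_deriv_nonneg (f := fun z => 1 / κ * (z - za) - g2 z)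
      (f' := fun z => 1 / κ - g3 z) hz.1.le ?_ ?_ ?_
    · simp only [sub_self, mul_zero, zero_sub] at this
      have h1 : 1 / κ * (z - za) ≤ 1 / κ * (β - za) := by
        apply mul_le_mul_of_nonneg_left _ (by positivity)
        linarith [hz.2]
      linarith
    · intro w hw
      have hw' : w ∈ Ioo c β := ⟨hza.1.trans_le hw.1, hw.2.trans_lt hz.2⟩
      have hcont : ContinuousAt (fun z : ℝ => 1 / κ * (z - za)) w := by fun_prop
      exact (hcont.sub (h.d2 w (sub w hw')).continuousAt).continuousWithinAt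
    · intro w hw
      have hw' : w ∈ Ioo c β := ⟨hza.1.trans hw.1, hw.2.trans hz.2⟩
      have e := (((hasDerivAt_id w).sub_const za).const_mul (1 / κ)).sub (h.d2 w (sub w hw'))
      refine e.congr_deriv ?_
      ring
    · intro w hw
      have hw' : w ∈ Ioo za β := ⟨hw.1, hw.2.trans hz.2⟩
      have := hg3up w hw'
      linarith
  have hB0 : 0 < B := by
    have h1 := hg2 ((za + β) / 2) ⟨by linarith [hza.2], by linarith [hza.2]⟩
    have h2 := hg2up ((za + β) / 2) ⟨by linarith [hza.2], by linarith [hza.2]⟩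
    linarith
  -- g1 lower bound
  have hg1low : ∀ z ∈ Ioo za β, 0 ≤ g1 z + B * (β - z) := by
    refine ge_lim (f' := fun z => g2 z - B) ?_ ?_ ?_
    · intro z hz
      have e := (h.d1 z (sub z (suba z hz))).add (((hasDerivAt_id z).const_sub β).const_mul B)
      refine e.congr_deriv ?_
      ring
    · intro z hz
      have := hg2up z hz
      linarith
    · simpa using h.l1.add (tend_lin B)
  -- bound on bb
  have hbb : ∀ z ∈ Ioo za β, |bb g g1 z| ≤ B / (2 * κ) := by
    intro z hz
    have hp := (hsm z (suba z hz)).1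
    have hsp : 0 < √(g z) := Real.sqrt_pos.mpr hp
    unfold bb
    rw [abs_div, abs_of_neg (hg1neg z hz), abs_of_pos (by positivity : 0 < 2 * √(g z)),
      div_le_div_iff₀ (by positivity) (by positivity)]
    have h1 := hg1low z hz
    have h2 := hslow z hz
    calc -g1 z * (2 * κ) ≤ (B * (β - z)) * (2 * κ) := by
          apply mul_le_mul_of_nonneg_right _ (by positivity)
          linarith
      _ = B * (2 * (κ * (β - z))) := by ring
      _ ≤ B * (2 * √(g z)) := by
          apply mul_le_mul_of_nonneg_left _ hB0.le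
          linarith
  -- tendsto
  have la : Tendsto (fun z => √(g z)) (𝓝[<] β) (𝓝 0) := by
    have := h.l0.sqrt
    simpa using this
  have evI : ∀ᶠ z in 𝓝[<] β, z ∈ Ioo za β := Ioo_mem_nhdsLT hza.2
  have bR : IsBoundedUnder (· ≤ ·) (𝓝[<] β) (fun z => ‖RR g g1 z‖) := by
    refine isBoundedUnder_of_eventually_le (a := 2 * 1 + 1 + 3 / 2 * β * (B / (2 * κ))) ?_
    filter_upwards [evI] with z hz
    have h1 := hbb z hz
    have hp := hsm z (suba z hz)
    have hsp : 0 < √(g z) := Real.sqrt_pos.mpr hp.1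
    have hs1 : √(g z) ≤ 1 := by
      rw [Real.sqrt_le_one]
      linarith [hp.2]
    have hz0 : 0 ≤ z := by linarith [h.hα, (sub z (suba z hz)).1]
    unfold RR
    rw [Real.norm_eq_abs]
    have h2 : |3 / 2 * z * bb g g1 z| ≤ 3 / 2 * β * (B / (2 * κ)) := by
      rw [abs_mul, abs_of_nonneg (by positivity : 0 ≤ 3 / 2 * z)]
      apply mul_le_mul _ h1 (abs_nonneg _) (by positivity)
      linarith [hz.2]
    have h3 := abs_le.mp h2
    rw [abs_le]
    constructor <;> linarith
  have t1 : Tendsto (fun z => g z * g3 z * RR g g1 z) (𝓝[<] β) (𝓝 0) :=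
    h.l3.zero_mul_isBoundedUnder_le bR
  -- second term
  have bQ : IsBoundedUnder (· ≤ ·) (𝓝[<] β)
      (fun z => ‖((g2 z - 2 * bb g g1 z ^ 2) / 2) *
        (3 / 2 * z * ((g2 z - 2 * bb g g1 z ^ 2) / 2) - √(g z) * bb g g1 z)‖) := by
    set M := (B + 2 * (B / (2 * κ)) ^ 2) / 2 with hM
    have hM0 : 0 < M := by positivity
    refine isBoundedUnder_of_eventually_le
      (a := M * (3 / 2 * β * M + 1 * (B / (2 * κ)))) ?_
    filter_upwards [evI] with z hz
    have h1 := hbb z hz
    have hp := hsm z (suba z hz)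
    have hsp : 0 < √(g z) := Real.sqrt_pos.mpr hp.1
    have hs1 : √(g z) ≤ 1 := by
      rw [Real.sqrt_le_one]
      linarith [hp.2]
    have hz0 : 0 ≤ z := by linarith [h.hα, (sub z (suba z hz)).1]
    have hw : |(g2 z - 2 * bb g g1 z ^ 2) / 2| ≤ M := by
      have h2 := hg2 z hz
      have h3 := hg2up z hz
      have h4 : bb g g1 z ^ 2 ≤ (B / (2 * κ)) ^ 2 := by
        rw [← sq_abs]
        exact pow_le_pow_left₀ (abs_nonneg _) h1 2
      have h5 : 0 ≤ bb g g1 z ^ 2 := sq_nonneg _
      rw [abs_le, hM]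
      constructor <;> linarith
    rw [Real.norm_eq_abs, abs_mul]
    apply mul_le_mul hw _ (abs_nonneg _) hM0.le
    calc |3 / 2 * z * ((g2 z - 2 * bb g g1 z ^ 2) / 2) - √(g z) * bb g g1 z|
        ≤ |3 / 2 * z * ((g2 z - 2 * bb g g1 z ^ 2) / 2)| + |√(g z) * bb g g1 z| :=
          abs_sub _ _
      _ ≤ 3 / 2 * β * M + 1 * (B / (2 * κ)) := by
          apply add_le_add
          · rw [abs_mul, abs_of_nonneg (by positivity : 0 ≤ 3 / 2 * z)]
            apply mul_le_mul _ hw (abs_nonneg _) (by positivity)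
            linarith [hz.2]
          · rw [abs_mul, abs_of_pos hsp]
            exact mul_le_mul hs1 h1 (abs_nonneg _) (by norm_num)
  have t2 : Tendsto (fun z => √(g z) * (((g2 z - 2 * bb g g1 z ^ 2) / 2) *
        (3 / 2 * z * ((g2 z - 2 * bb g g1 z ^ 2) / 2) - √(g z) * bb g g1 z)))
        (𝓝[<] β) (𝓝 0) :=
    la.zero_mul_isBoundedUnder_le bQ
  have t3 := t1.add t2
  rw [add_zero] at t3
  refine t3.congr' ?_
  filter_upwards [evI] with z hz
  have hp := (hsm z (suba z hz)).1
  have hsp : 0 < √(g z) := Real.sqrt_pos.mpr hp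
  have hc : (g2 z - 2 * bb g g1 z ^ 2) / 2 = √(g z) * cc g g1 g2 z := by
    unfold cc
    field_simp
  rw [hc]
  unfold LL
  ring

end Pool.Agent.Lib.ThinFilm
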