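import Pool.Agent.Lib.MP_98503b_an.Contact

/-!
The core contradiction on a component `(α, β)` of the positivity set.
-/

set_option autoImplicit false

namespace Pool.Agent.Lib.ThinFilm

open Set Filter Topology

variable {α β : ℝ} {g g1 g2 g3 : ℝ → ℝ}

lemma deriv_nonpos_of_right {f : ℝ → ℝ} {f' x t : ℝ} (hxt : x < t) (hd : HasDerivAt f f' x)
    (hr : ∀ y ∈ Ioo x t, f y ≤ f x) : f' ≤ 0 := by
  have h1 := hasDerivAt_iff_tendsto_slope.mp hd
  have h2 : Tendsto (slope f x) (𝓝[>] x) (𝓝 f') :=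
    h1.mono_left (nhdsWithin_mono x (fun y (hy : x < y) => ne_of_gt hy))
  apply le_of_tendsto h2
  have hm : Ioo x t ∈ 𝓝[>] x := Ioo_mem_nhdsGT hxt
  filter_upwards [hm] with y hy
  rw [slope_def_field]
  apply div_nonpos_of_nonpos_of_nonneg
  · linarith [hr y hy]
  · linarith [hy.1]

lemma deriv_nonneg_of_right {f : ℝ → ℝ} {f' x t : ℝ} (hxt : x < t) (hd : HasDerivAt f f' x)
    (hr : ∀ y ∈ Ioo x t, f x ≤ f y) : 0 ≤ f' := by
  have := deriv_nonpos_of_right (f := fun y => - f y) hxt hd.neg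
    (fun y hy => neg_le_neg (hr y hy))
  linarith

/-- the first critical point to the left of `β`. -/
lemma Comp.exists_z1 (h : Comp α β g g1 g2 g3) (c1 : ContinuousOn g1 (Ico α β))
    (h1 : g1 α = 0) :
    ∃ z1, α ≤ z1 ∧ z1 < β ∧ g1 z1 = 0 ∧ ∀ z ∈ Ioo z1 β, g1 z < 0 := by
  obtain ⟨za, hza1, hza2, hneg, _⟩ := h.contact
  set zb := (za + β) / 2 with hzb
  have hzb1 : za < zb := by rw [hzb]; linarith
  have hzb2 : zb < β := by rw [hzb]; linarith
  have hαzb : α < zb := hza1.trans hzb1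
  have hcI : ContinuousOn g1 (Icc α zb) :=
    c1.mono (fun z hz => ⟨hz.1, hz.2.trans_lt hzb2⟩)
  have hcomp : IsCompact {z ∈ Icc α zb | g1 z = 0} := by
    have : {z ∈ Icc α zb | g1 z = 0} = Icc α zb ∩ g1 ⁻¹' {0} := rfl
    rw [this]
    exact isCompact_Icc.of_isClosed_subset
      (hcI.preimage_isClosed_of_isClosed isClosed_Icc isClosed_singleton) inter_subset_left
  have hne : {z ∈ Icc α zb | g1 z = 0}.Nonempty := ⟨α, ⟨le_refl _, hαzb.le⟩, h1⟩
  obtain ⟨z1, hz1, hmax⟩ := hcomp.exists_isGreatest hne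
  refine ⟨z1, hz1.1.1, hz1.1.2.trans_lt hzb2, hz1.2, ?_⟩
  intro z hz
  by_cases hzz : zb < z
  · exact hneg z ⟨hzb1.trans hzz, hz.2⟩
  push Not at hzz
  have hzbneg : g1 zb < 0 := hneg zb ⟨hzb1, hzb2⟩
  by_contra hcon
  push Not at hcon
  -- there is a zero in `[z, zb]`
  have hc2 : ContinuousOn g1 (Icc z zb) :=
    hcI.mono (fun w hw => ⟨hz1.1.1.trans (hz.1.le.trans hw.1), hw.2⟩)
  have := intermediate_value_Icc' hzz hc2
  obtain ⟨w, hw1, hw2⟩ := this ⟨hzbneg.le, hcon⟩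
  have hw3 := hmax ⟨⟨hz1.1.1.trans (hz.1.le.trans hw1.1), hw1.2⟩, hw2⟩
  linarith [hz.1, hw1.1]

/-- The Lyapunov function is negative to the right of the last critical point. -/
lemma Comp.L_neg (h : Comp α β g g1 g2 g3) {z1 : ℝ} (hz1 : α ≤ z1) (_hz1β : z1 < β)
    (hneg : ∀ z ∈ Ioo z1 β, g1 z < 0) : ∀ z ∈ Ioo z1 β, LL g g1 g2 g3 z < 0 := by
  obtain ⟨za, hza1, hza2, _, hL⟩ := h.contact
  have sub : ∀ z ∈ Ioo z1 β, z ∈ Ioo α β := fun z hz => ⟨hz1.trans_lt hz.1, hz.2⟩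
  have hd : ∀ z ∈ Ioo z1 β, HasDerivAt (LL g g1 g2 g3)
      (√(g z) * RR g g1 z ^ 2 + 1 / 2 * √(g z) ^ 3 * cc g g1 g2 z ^ 2
        - 9 / 2 * z * √(g z) ^ 2 * bb g g1 z * cc g g1 g2 z ^ 2) z := fun z hz =>
    hasDerivAt_L (h.d0 z (sub z hz)) (h.d1 z (sub z hz)) (h.d2 z (sub z hz))
      (h.dH z (sub z hz)) (h.pos z (sub z hz))
  have hs : ∀ z ∈ Ioo z1 β, 0 < √(g z) := fun z hz => Real.sqrt_pos.mpr (h.pos z (sub z hz))
  have hb : ∀ z ∈ Ioo z1 β, bb g g1 z < 0 := by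
    intro z hz
    unfold bb
    exact div_neg_of_neg_of_pos (hneg z hz) (by have := hs z hz; positivity)
  have hz0 : ∀ z ∈ Ioo z1 β, 0 ≤ z := fun z hz => by linarith [h.hα, (sub z hz).1]
  have hnn : ∀ z ∈ Ioo z1 β, 0 ≤ √(g z) * RR g g1 z ^ 2
        + 1 / 2 * √(g z) ^ 3 * cc g g1 g2 z ^ 2
        - 9 / 2 * z * √(g z) ^ 2 * bb g g1 z * cc g g1 g2 z ^ 2 := fun z hz =>
    L_deriv_nonneg (hz0 z hz) (hs z hz) (hb z hz).le
  have hle := le_lim hd hnn hL
  intro z hz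
  rcases (hle z hz).lt_or_eq with hlt | heq
  · exact hlt
  exfalso
  -- then `LL` vanishes on `(z, β)`
  have hzero : ∀ w ∈ Ioo z β, LL g g1 g2 g3 w = 0 := by
    intro w hw
    have hw' : w ∈ Ioo z1 β := ⟨hz.1.trans hw.1, hw.2⟩
    apply le_antisymm (hle w hw')
    rw [← heq]
    refine le_of_deriv_nonneg hw.1.le ?_
      (fun y hy => hd y ⟨hz.1.trans hy.1, hy.2.trans hw.2⟩)
      (fun y hy => hnn y ⟨hz.1.trans hy.1, hy.2.trans hw.2⟩)
    intro y hy
    exact (hd y ⟨hz.1.trans_le hy.1, hy.2.trans_lt hw.2⟩).continuousAt.continuousWithinAt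
  have hdz : ∀ w ∈ Ioo z β, √(g w) * RR g g1 w ^ 2
        + 1 / 2 * √(g w) ^ 3 * cc g g1 g2 w ^ 2
        - 9 / 2 * w * √(g w) ^ 2 * bb g g1 w * cc g g1 g2 w ^ 2 = 0 := by
    intro w hw
    have hw' : w ∈ Ioo z1 β := ⟨hz.1.trans hw.1, hw.2⟩
    have e1 := hd w hw'
    have e2 : HasDerivAt (LL g g1 g2 g3) 0 w := by
      have : (LL g g1 g2 g3) =ᶠ[𝓝 w] fun _ => 0 := by
        filter_upwards [Ioo_mem_nhds hw.1 hw.2] with y hy
        exact hzero y hy
      exact (hasDerivAt_const w (0 : ℝ)).congr_of_eventuallyEq this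
    exact e1.unique e2
  have hRc : ∀ w ∈ Ioo z β, RR g g1 w = 0 ∧ cc g g1 g2 w = 0 := by
    intro w hw
    have hw' : w ∈ Ioo z1 β := ⟨hz.1.trans hw.1, hw.2⟩
    exact L_deriv_zero (hz0 w hw') (hs w hw') (hb w hw').le (hdz w hw)
  set w := (z + β) / 2 with hw
  have hwI : w ∈ Ioo z β := ⟨by rw [hw]; linarith [hz.2], by rw [hw]; linarith [hz.2]⟩
  have hw' : w ∈ Ioo z1 β := ⟨hz.1.trans hwI.1, hwI.2⟩
  have e1 := hasDerivAt_R (h.d0 w (sub w hw')) (h.d1 w (sub w hw')) (h.pos w (sub w hw'))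
  have e2 : HasDerivAt (RR g g1) 0 w := by
    have : (RR g g1) =ᶠ[𝓝 w] fun _ => 0 := by
      filter_upwards [Ioo_mem_nhds hwI.1 hwI.2] with y hy
      exact (hRc y hy).1
    exact (hasDerivAt_const w (0 : ℝ)).congr_of_eventuallyEq this
  have e3 := e1.unique e2
  rw [(hRc w hwI).2] at e3
  have e4 := hb w hw'
  linarith

/-- The left cone argument. -/
lemma Comp.left_cone (h : Comp α β g g1 g2 g3) {z1 : ℝ} (hz1 : α < z1) (hz1β : z1 < β)
    (c1 : ContinuousOn g1 (Ico α β)) (h1 : g1 α = 0)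
    (hg1 : g1 z1 = 0) (hg2 : g2 z1 ≤ 0) (hH : 0 < g z1 * g3 z1) (hq : g z1 < 1 / 4) : False := by
  have sub : ∀ z ∈ Ioc α z1, z ∈ Ioo α β := fun z hz => ⟨hz.1, hz.2.trans_lt hz1β⟩
  -- propagate on `(w, z1)` the signs when `H > 0` there
  have prop : ∀ w, α < w → w < z1 → (∀ z ∈ Ioo w z1, 0 < g z * g3 z) →
      (∀ z ∈ Ioo w z1, 0 < g1 z ∧ g z < 1 / 4) := by
    intro w hαw hwz hHw
    have k3 : ∀ z ∈ Ioo w z1, 0 < g3 z := by
      intro z hz
      exact (mul_pos_iff_of_pos_left (h.pos z (sub z ⟨hαw.trans hz.1, hz.2.le⟩))).mp (hHw z hz)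
    have k2 : ∀ z ∈ Ioo w z1, g2 z < 0 := by
      intro z hz
      have := lt_of_deriv_pos (f' := g3) hz.2
        (fun y hy => (h.d2 y (sub y ⟨(hαw.trans hz.1).trans_le hy.1,
          hy.2⟩)).continuousAt.continuousWithinAt)
        (fun y hy => h.d2 y (sub y ⟨(hαw.trans hz.1).trans hy.1, hy.2.le⟩))
        (fun y hy => k3 y ⟨hz.1.trans hy.1, hy.2⟩)
      linarith
    have k1 : ∀ z ∈ Ioo w z1, 0 < g1 z := by
      intro z hz
      have := lt_of_deriv_pos (f := fun y => - g1 y) (f' := fun y => - g2 y) hz.2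
        (fun y hy => (h.d1 y (sub y ⟨(hαw.trans hz.1).trans_le hy.1,
          hy.2⟩)).neg.continuousAt.continuousWithinAt)
        (fun y hy => (h.d1 y (sub y ⟨(hαw.trans hz.1).trans hy.1, hy.2.le⟩)).neg)
        (fun y hy => by have := k2 y ⟨hz.1.trans hy.1, hy.2⟩; linarith)
      simp only [hg1] at this
      linarith
    intro z hz
    refine ⟨k1 z hz, ?_⟩
    have := lt_of_deriv_pos (f' := g1) hz.2
      (fun y hy => (h.d0 y (sub y ⟨(hαw.trans hz.1).trans_le hy.1,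
        hy.2⟩)).continuousAt.continuousWithinAt)
      (fun y hy => h.d0 y (sub y ⟨(hαw.trans hz.1).trans hy.1, hy.2.le⟩))
      (fun y hy => k1 y ⟨hz.1.trans hy.1, hy.2⟩)
    linarith
  -- `H > 0` on `(α, z1)`
  have hHall : ∀ z ∈ Ioo α z1, 0 < g z * g3 z := by
    intro z' hz'
    by_contra hcon
    push Not at hcon
    have hcI : ContinuousOn (fun z => g z * g3 z) (Icc z' z1) := fun y hy =>
      (h.dH y (sub y ⟨hz'.1.trans_le hy.1, hy.2⟩)).continuousAt.continuousWithinAt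
    have hcomp : IsCompact (Icc z' z1 ∩ (fun z => g z * g3 z) ⁻¹' (Iic 0)) :=
      isCompact_Icc.of_isClosed_subset
        (hcI.preimage_isClosed_of_isClosed isClosed_Icc isClosed_Iic) inter_subset_left
    have hne : (Icc z' z1 ∩ (fun z => g z * g3 z) ⁻¹' (Iic 0)).Nonempty :=
      ⟨z', ⟨le_refl _, hz'.2.le⟩, hcon⟩
    obtain ⟨zs, hzs, hmax⟩ := hcomp.exists_isGreatest hne
    have hzs0 : g zs * g3 zs ≤ 0 := hzs.2
    have hzs1 : zs < z1 := by
      rcases hzs.1.2.lt_or_eq with hlt | heq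
      · exact hlt
      · rw [heq] at hzs0
        linarith
    have hαzs : α < zs := hz'.1.trans_le hzs.1.1
    have hHw : ∀ z ∈ Ioo zs z1, 0 < g z * g3 z := by
      intro z hz
      by_contra hc
      push Not at hc
      have := hmax ⟨⟨hzs.1.1.trans hz.1.le, hz.2.le⟩, hc⟩
      linarith [hz.1]
    have hp := prop zs hαzs hzs1 hHw
    have := lt_of_deriv_pos (f := fun z => - (g z * g3 z))
      (f' := fun z => -(2 * g z - √(g z) - 3 / 4 * z * g1 z)) hzs1
      (fun y hy => (h.dH y (sub y ⟨hαzs.trans_le hy.1,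
        hy.2⟩)).neg.continuousAt.continuousWithinAt)
      (fun y hy => (h.dH y (sub y ⟨hαzs.trans hy.1, hy.2.le⟩)).neg)
      (fun y hy => by
        obtain ⟨a1, a2⟩ := hp y hy
        have hyI := sub y ⟨hαzs.trans hy.1, hy.2.le⟩
        have hpos := h.pos y hyI
        have hs : 0 < √(g y) := Real.sqrt_pos.mpr hpos
        have hsq : √(g y) * √(g y) = g y := Real.mul_self_sqrt hpos.le
        have hhalf : √(g y) < 1 / 2 := by
          rw [show (1 / 2 : ℝ) = √(1 / 4) by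
            rw [show (1 / 4 : ℝ) = (1 / 2) ^ 2 by norm_num, Real.sqrt_sq (by norm_num)]]
          exact Real.sqrt_lt_sqrt hpos.le a2
        have hy0 : 0 < y := by linarith [h.hα, hyI.1]
        have : 0 < 3 / 4 * y * g1 y := by positivity
        nlinarith)
    linarith
  set zm := (α + z1) / 2 with hzm
  have hm1 : α < zm := by rw [hzm]; linarith
  have hm2 : zm < z1 := by rw [hzm]; linarith
  have sgn : ∀ z ∈ Ioo α z1, g2 z < 0 := by
    intro z hz
    have k3 : ∀ y ∈ Ioo z z1, 0 < g3 y := by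
      intro y hy
      exact (mul_pos_iff_of_pos_left (h.pos y (sub y ⟨hz.1.trans hy.1, hy.2.le⟩))).mp
        (hHall y ⟨hz.1.trans hy.1, hy.2⟩)
    have := lt_of_deriv_pos (f' := g3) hz.2
      (fun y hy => (h.d2 y (sub y ⟨hz.1.trans_le hy.1,
        hy.2⟩)).continuousAt.continuousWithinAt)
      (fun y hy => h.d2 y (sub y ⟨hz.1.trans hy.1, hy.2.le⟩))
      (fun y hy => k3 y hy)
    linarith
  have hg1m : 0 < g1 zm := by
    have := lt_of_deriv_pos (f := fun y => - g1 y) (f' := fun y => - g2 y) hm2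
      (fun y hy => (h.d1 y (sub y ⟨hm1.trans_le hy.1,
        hy.2⟩)).neg.continuousAt.continuousWithinAt)
      (fun y hy => (h.d1 y (sub y ⟨hm1.trans hy.1, hy.2.le⟩)).neg)
      (fun y hy => by have := sgn y ⟨hm1.trans hy.1, hy.2⟩; linarith)
    simp only [hg1] at this
    linarith
  have hlast : g1 zm ≤ g1 α := by
    have := le_of_deriv_nonneg (f := fun y => - g1 y) (f' := fun y => - g2 y) hm1.le
      ((c1.mono (fun y hy => ⟨hy.1, hy.2.trans_lt (hm2.trans hz1β)⟩)).neg)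
      (fun y hy => (h.d1 y (sub y ⟨hy.1, (hy.2.trans hm2).le⟩)).neg)
      (fun y hy => by have := sgn y ⟨hy.1, hy.2.trans hm2⟩; linarith)
    linarith
  linarith

/-- The cone argument to the right of the last critical point. -/
lemma Comp.right_cone (h : Comp α β g g1 g2 g3) {z1 : ℝ} (hz1 : α < z1) (hz1β : z1 < β)
    (hneg : ∀ z ∈ Ioo z1 β, g1 z < 0)
    (hg1 : g1 z1 = 0) (hg2 : g2 z1 ≤ 0) (hH : g z1 * g3 z1 < 0) : False := by
  have sub : ∀ z ∈ Ico z1 β, z ∈ Ioo α β := fun z hz => ⟨hz1.trans_le hz.1, hz.2⟩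
  have hLneg := h.L_neg hz1.le hz1β hneg
  have hz0 : ∀ z ∈ Ico z1 β, 0 < z := fun z hz => by linarith [h.hα, (sub z hz).1]
  have hs : ∀ z ∈ Ico z1 β, 0 < √(g z) := fun z hz => Real.sqrt_pos.mpr (h.pos z (sub z hz))
  have hbneg : ∀ z ∈ Ioo z1 β, bb g g1 z < 0 := by
    intro z hz
    unfold bb
    exact div_neg_of_neg_of_pos (hneg z hz) (by have := hs z ⟨hz.1.le, hz.2⟩; positivity)
  have hb1 : bb g g1 z1 = 0 := by unfold bb; rw [hg1]; simp
  -- there is a point with `H ≥ 0`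
  have hex : ∃ z' ∈ Ioo z1 β, 0 ≤ g z' * g3 z' := by
    by_contra hcon
    push Not at hcon
    have k3 : ∀ z ∈ Ioo z1 β, g3 z < 0 := by
      intro z hz
      have hp := h.pos z (sub z ⟨hz.1.le, hz.2⟩)
      have h1 := hcon z hz
      by_contra hc
      push Not at hc
      have := mul_nonneg hp.le hc
      linarith
    have k2 : ∀ z ∈ Ioo z1 β, g2 z < 0 := by
      intro z hz
      have := lt_of_deriv_pos (f := fun y => - g2 y) (f' := fun y => - g3 y) hz.1
        (fun y hy => (h.d2 y (sub y ⟨hy.1,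
          hy.2.trans_lt hz.2⟩)).neg.continuousAt.continuousWithinAt)
        (fun y hy => (h.d2 y (sub y ⟨hy.1.le, hy.2.trans hz.2⟩)).neg)
        (fun y hy => by have := k3 y ⟨hy.1, hy.2.trans hz.2⟩; linarith)
      linarith
    have k1 := gt_lim (fun z hz => h.d1 z (sub z ⟨hz.1.le, hz.2⟩)) k2 h.l1
    have hmid : (z1 + β) / 2 ∈ Ioo z1 β := ⟨by linarith, by linarith⟩
    have a1 := k1 _ hmid
    have a2 := hneg _ hmid
    linarith
  obtain ⟨z', hz', hHz'⟩ := hex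
  have hcI : ContinuousOn (fun z => g z * g3 z) (Icc z1 z') := fun y hy =>
    (h.dH y (sub y ⟨hy.1, hy.2.trans_lt hz'.2⟩)).continuousAt.continuousWithinAt
  have hcomp : IsCompact (Icc z1 z' ∩ (fun z => g z * g3 z) ⁻¹' (Ici 0)) :=
    isCompact_Icc.of_isClosed_subset
      (hcI.preimage_isClosed_of_isClosed isClosed_Icc isClosed_Ici) inter_subset_left
  have hne : (Icc z1 z' ∩ (fun z => g z * g3 z) ⁻¹' (Ici 0)).Nonempty :=
    ⟨z', ⟨hz'.1.le, le_refl _⟩, hHz'⟩
  obtain ⟨z2, hz2, hmin⟩ := hcomp.exists_isLeast hne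
  have hz20 : 0 ≤ g z2 * g3 z2 := hz2.2
  have hz12 : z1 < z2 := by
    rcases hz2.1.1.lt_or_eq with hlt | heq
    · exact hlt
    · rw [← heq] at hz20
      linarith
  have hz2β : z2 < β := hz2.1.2.trans_lt hz'.2
  have hHneg : ∀ z ∈ Ico z1 z2, g z * g3 z < 0 := by
    intro z hz
    by_contra hc
    push Not at hc
    have := hmin ⟨⟨hz.1, hz.2.le.trans hz2.1.2⟩, hc⟩
    linarith [hz.2]
  have hH2 : g z2 * g3 z2 = 0 := by
    apply le_antisymm _ hz20
    have hc2 : ContinuousAt (fun z => g z * g3 z) z2 :=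
      (h.dH z2 (sub z2 ⟨hz12.le, hz2β⟩)).continuousAt
    have hl : Tendsto (fun z => g z * g3 z) (𝓝[<] z2) (𝓝 (g z2 * g3 z2)) :=
      hc2.tendsto.mono_left nhdsWithin_le_nhds
    apply le_of_tendsto hl
    have hm : Ioo z1 z2 ∈ 𝓝[<] z2 := Ioo_mem_nhdsLT hz12
    filter_upwards [hm] with y hy
    exact (hHneg y ⟨hy.1.le, hy.2⟩).le
  -- the function `Y = 3 z c - 2 b`
  have hY2 : 0 < 3 * z2 * cc g g1 g2 z2 - 2 * bb g g1 z2 := by
    have h1 := hLneg z2 ⟨hz12, hz2β⟩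
    unfold LL at h1
    rw [hH2, zero_mul, zero_add] at h1
    have hs2 := hs z2 ⟨hz12.le, hz2β⟩
    have hb2 := hbneg z2 ⟨hz12, hz2β⟩
    have hp2 := hz0 z2 ⟨hz12.le, hz2β⟩
    have h3 : cc g g1 g2 z2 * (3 / 2 * z2 * cc g g1 g2 z2 - bb g g1 z2) < 0 := by
      by_contra hc
      push Not at hc
      have : 0 ≤ √(g z2) ^ 3 * (cc g g1 g2 z2 *
        (3 / 2 * z2 * cc g g1 g2 z2 - bb g g1 z2)) := by positivity
      linarith
    have hcneg : cc g g1 g2 z2 < 0 := by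
      by_contra hc
      push Not at hc
      have h4 : 0 ≤ 3 / 2 * z2 * cc g g1 g2 z2 - bb g g1 z2 := by
        have : 0 ≤ 3 / 2 * z2 * cc g g1 g2 z2 := by positivity
        linarith
      have := mul_nonneg hc h4
      linarith
    by_contra hc
    push Not at hc
    have h5 : 3 / 2 * z2 * cc g g1 g2 z2 - bb g g1 z2 ≤ 0 := by linarith
    have := mul_nonneg_of_nonpos_of_nonpos hcneg.le h5
    linarith
  have hdY : ∀ z ∈ Ico z1 β, HasDerivAt
      (fun z => 3 * z * cc g g1 g2 z - 2 * bb g g1 z)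
      (cc g g1 g2 z * (1 - 9 * z * bb g g1 z / √(g z))
        + 3 * z * (g z * g3 z) / (2 * √(g z) ^ 3)) z := by
    intro z hz
    have hI := sub z hz
    have hb := hasDerivAt_b (h.d0 z hI) (h.d1 z hI) (h.pos z hI)
    have hc := hasDerivAt_c (h.d0 z hI) (h.d1 z hI) (h.d2 z hI) (h.pos z hI)
    have e := (((hasDerivAt_id z).const_mul (3 : ℝ)).mul hc).sub (hb.const_mul 2)
    refine e.congr_deriv ?_
    simp only [id]
    ring
  -- `Y > 0` on `[z1, z2]`
  have hYpos : ∀ z ∈ Icc z1 z2, 0 < 3 * z * cc g g1 g2 z - 2 * bb g g1 z := by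
    intro w hw
    by_contra hcon
    push Not at hcon
    have hcI : ContinuousOn (fun z => 3 * z * cc g g1 g2 z - 2 * bb g g1 z) (Icc w z2) :=
      fun y hy => (hdY y ⟨hw.1.trans hy.1,
        hy.2.trans_lt hz2β⟩).continuousAt.continuousWithinAt
    have hcomp : IsCompact
        (Icc w z2 ∩ (fun z => 3 * z * cc g g1 g2 z - 2 * bb g g1 z) ⁻¹' (Iic 0)) :=
      isCompact_Icc.of_isClosed_subset
        (hcI.preimage_isClosed_of_isClosed isClosed_Icc isClosed_Iic) inter_subset_left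
    have hne : (Icc w z2 ∩
        (fun z => 3 * z * cc g g1 g2 z - 2 * bb g g1 z) ⁻¹' (Iic 0)).Nonempty :=
      ⟨w, ⟨le_refl _, hw.2⟩, hcon⟩
    obtain ⟨zs, hzs, hmax⟩ := hcomp.exists_isGreatest hne
    have hzs0 : 3 * zs * cc g g1 g2 zs - 2 * bb g g1 zs ≤ 0 := hzs.2
    have hzs2 : zs < z2 := by
      rcases hzs.1.2.lt_or_eq with hlt | heq
      · exact hlt
      · rw [heq] at hzs0
        linarith
    have hz1s : z1 ≤ zs := hw.1.trans hzs.1.1
    have hzsI : zs ∈ Ico z1 β := ⟨hz1s, hzs2.trans hz2β⟩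
    have hYr : ∀ z ∈ Ioo zs z2, 0 < 3 * z * cc g g1 g2 z - 2 * bb g g1 z := by
      intro z hz
      by_contra hc
      push Not at hc
      have := hmax ⟨⟨hzs.1.1.trans hz.1.le, hz.2.le⟩, hc⟩
      linarith [hz.1]
    have hYs : 3 * zs * cc g g1 g2 zs - 2 * bb g g1 zs = 0 := by
      apply le_antisymm hzs0
      have hl : Tendsto (fun z => 3 * z * cc g g1 g2 z - 2 * bb g g1 z) (𝓝[>] zs)
          (𝓝 (3 * zs * cc g g1 g2 zs - 2 * bb g g1 zs)) :=
        (hdY zs hzsI).continuousAt.tendsto.mono_left nhdsWithin_le_nhds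
      apply ge_of_tendsto hl
      have hm : Ioo zs z2 ∈ 𝓝[>] zs := Ioo_mem_nhdsGT hzs2
      filter_upwards [hm] with y hy
      exact (hYr y hy).le
    have hder := deriv_nonneg_of_right hzs2 (hdY zs hzsI) (fun y hy => by
      simp only [hYs]
      exact (hYr y hy).le)
    have hss := hs zs hzsI
    have hzp := hz0 zs hzsI
    have hHs := hHneg zs ⟨hz1s, hzs2⟩
    have hterm2 : 3 * zs * (g zs * g3 zs) / (2 * √(g zs) ^ 3) < 0 := by
      apply div_neg_of_neg_of_pos _ (by positivity)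
      have : 0 < 3 * zs := by positivity
      exact mul_neg_of_pos_of_neg this hHs
    have hbs : bb g g1 zs ≤ 0 := by
      rcases hz1s.lt_or_eq with hlt | heq
      · exact (hbneg zs ⟨hlt, hzsI.2⟩).le
      · rw [← heq, hb1]
    have hcs : cc g g1 g2 zs ≤ 0 := by
      by_contra hc
      push Not at hc
      have : 0 < 3 * zs * cc g g1 g2 zs := by positivity
      linarith
    have hfac : 0 ≤ 1 - 9 * zs * bb g g1 zs / √(g zs) := by
      have : 9 * zs * bb g g1 zs / √(g zs) ≤ 0 := by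
        apply div_nonpos_of_nonpos_of_nonneg _ hss.le
        exact mul_nonpos_of_nonneg_of_nonpos (by positivity) hbs
      linarith
    have hterm1 := mul_nonpos_of_nonpos_of_nonneg hcs hfac
    linarith
  have hfin := hYpos z1 ⟨le_refl _, hz12.le⟩
  rw [hb1] at hfin
  have hs1 := hs z1 ⟨le_refl _, hz1β⟩
  have hz1p := hz0 z1 ⟨le_refl _, hz1β⟩
  have hc1 : cc g g1 g2 z1 ≤ 0 := by
    unfold cc
    rw [hb1]
    apply div_nonpos_of_nonpos_of_nonneg _ (by positivity)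
    simpa using hg2
  have : 3 * z1 * cc g g1 g2 z1 ≤ 0 := mul_nonpos_of_nonneg_of_nonpos (by positivity) hc1
  linarith

/-- The core contradiction. -/
theorem Comp.false (h : Comp α β g g1 g2 g3)
    (c0 : ContinuousOn g (Ico α β)) (c1 : ContinuousOn g1 (Ico α β))
    (c2 : ContinuousOn g2 (Ico α β)) (c3 : ContinuousOn g3 (Ico α β))
    (h1 : g1 α = 0) (hgα : 0 < α → g α = 0) (h3 : α = 0 → g3 α = 0) : False := by
  obtain ⟨z1, hz1, hz1β, hg1, hneg⟩ := h.exists_z1 c1 h1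
  have hLneg := h.L_neg hz1 hz1β hneg
  set zm := (z1 + β) / 2 with hzm
  have hm1 : z1 < zm := by rw [hzm]; linarith
  have hm2 : zm < β := by rw [hzm]; linarith
  have sub : ∀ z ∈ Ioo z1 β, z ∈ Ioo α β := fun z hz => ⟨hz1.trans_lt hz.1, hz.2⟩
  have sub' : ∀ z ∈ Icc z1 zm, z ∈ Ico α β := fun z hz => ⟨hz1.trans hz.1, hz.2.trans_lt hm2⟩
  -- `g z1 > 0`
  have hgz1 : 0 < g z1 := by
    have := le_of_deriv_nonneg (f := fun y => - g y) (f' := fun y => - g1 y) hm1.le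
      ((c0.mono (fun y hy => sub' y hy)).neg)
      (fun y hy => (h.d0 y (sub y ⟨hy.1, hy.2.trans hm2⟩)).neg)
      (fun y hy => by have := hneg y ⟨hy.1, hy.2.trans hm2⟩; linarith)
    have h2 := h.pos zm (sub zm ⟨hm1, hm2⟩)
    linarith
  -- `LL z1 < 0`
  have hposI : ∀ z ∈ Icc z1 zm, 0 < g z := by
    intro z hz
    rcases hz.1.lt_or_eq with hlt | heq
    · exact h.pos z (sub z ⟨hlt, hz.2.trans_lt hm2⟩)
    · rw [← heq]; exact hgz1
  have hLcont : ContinuousOn (LL g g1 g2 g3) (Icc z1 zm) := by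
    have k0 : ContinuousOn g (Icc z1 zm) := c0.mono sub'
    have k1 : ContinuousOn g1 (Icc z1 zm) := c1.mono sub'
    have k2 : ContinuousOn g2 (Icc z1 zm) := c2.mono sub'
    have k3 : ContinuousOn g3 (Icc z1 zm) := c3.mono sub'
    have ks : ContinuousOn (fun z => √(g z)) (Icc z1 zm) := k0.sqrt
    have kid : ContinuousOn (fun z : ℝ => z) (Icc z1 zm) := continuousOn_id
    have kne : ∀ z ∈ Icc z1 zm, (2 * √(g z)) ≠ 0 := by
      intro z hz
      have := Real.sqrt_pos.mpr (hposI z hz)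
      positivity
    have kb : ContinuousOn (bb g g1) (Icc z1 zm) :=
      k1.div (continuousOn_const.mul ks) kne
    have kc : ContinuousOn (cc g g1 g2) (Icc z1 zm) :=
      (k2.sub (continuousOn_const.mul (kb.pow 2))).div (continuousOn_const.mul ks) kne
    have kR : ContinuousOn (RR g g1) (Icc z1 zm) :=
      ((continuousOn_const.mul ks).sub continuousOn_const).sub
        ((continuousOn_const.mul kid).mul kb)
    exact ((k0.mul k3).mul kR).add (((ks.pow 3).mul kc).mul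
      (((continuousOn_const.mul kid).mul kc).sub kb))
  have hLz1 : LL g g1 g2 g3 z1 < 0 := by
    have h2 := hLneg zm ⟨hm1, hm2⟩
    have := le_of_deriv_nonneg (f := LL g g1 g2 g3) hm1.le hLcont
      (fun z hz => by
        have hI := sub z ⟨hz.1, hz.2.trans hm2⟩
        exact hasDerivAt_L (h.d0 z hI) (h.d1 z hI) (h.d2 z hI) (h.dH z hI) (h.pos z hI))
      (fun z hz => by
        have hI := sub z ⟨hz.1, hz.2.trans hm2⟩
        have hs := Real.sqrt_pos.mpr (h.pos z hI)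
        refine L_deriv_nonneg (by linarith [h.hα, hI.1]) hs ?_
        unfold bb
        exact div_nonpos_of_nonpos_of_nonneg (hneg z ⟨hz.1, hz.2.trans hm2⟩).le
          (by positivity))
    linarith
  have hs1 : 0 < √(g z1) := Real.sqrt_pos.mpr hgz1
  have hb1 : bb g g1 z1 = 0 := by unfold bb; rw [hg1]; simp
  have hL1 : LL g g1 g2 g3 z1 = g z1 * g3 z1 * (2 * √(g z1) - 1)
      + 3 / 2 * z1 * (√(g z1) ^ 3 * cc g g1 g2 z1 ^ 2) := by
    unfold LL RR
    rw [hb1]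
    ring
  rcases hz1.lt_or_eq with hlt | heq
  swap
  · -- `z1 = α`, so `α = 0`
    have hα0 : α = 0 := by
      rcases h.hα.lt_or_eq with hp | hp
      · have := hgα hp
        rw [← heq, this] at hgz1
        exact absurd hgz1 (lt_irrefl _)
      · exact hp.symm
    have hz10 : z1 = 0 := by rw [← heq, hα0]
    have h4 : g3 z1 = 0 := by rw [← heq]; exact h3 hα0
    rw [hL1, h4, hz10] at hLz1
    simp at hLz1
  have hz1p : 0 < z1 := h.hα.trans_lt hlt
  have hI : z1 ∈ Ioo α β := ⟨hlt, hz1β⟩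
  have hg2 : g2 z1 ≤ 0 := deriv_nonpos_of_right hz1β (h.d1 z1 hI)
    (fun y hy => by rw [hg1]; exact (hneg y hy).le)
  have hHR : g z1 * g3 z1 * (2 * √(g z1) - 1) < 0 := by
    have : 0 ≤ 3 / 2 * z1 * (√(g z1) ^ 3 * cc g g1 g2 z1 ^ 2) := by positivity
    rw [hL1] at hLz1
    linarith
  rcases lt_trichotomy (g z1 * g3 z1) 0 with hH | hH | hH
  · exact h.right_cone hlt hz1β hneg hg1 hg2 hH
  · rw [hH] at hHR
    simp at hHR
  · have hq : g z1 < 1 / 4 := by
      have h5 : 2 * √(g z1) - 1 < 0 := by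
        by_contra hc
        push Not at hc
        have := mul_nonneg hH.le hc
        linarith
      have h6 : √(g z1) < 1 / 2 := by linarith
      have h7 : g z1 = √(g z1) * √(g z1) := (Real.mul_self_sqrt hgz1.le).symm
      nlinarith
    exact h.left_cone hlt hz1β c1 h1 hg1 hg2 hH hq

end Pool.Agent.Lib.ThinFilm
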