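import Mathlib

/-!
The boundary value problem for self-similar extinction profiles of the thin-film equation with
strong absorption.
-/

set_option autoImplicit false

namespace Pool.Agent.Lib.ThinFilm

open Set Filter Topology

/-- `IsClassicalSolution z₀ g`: the function `g`, viewed on `[0, z₀]`, is a nonnegative classical
solution of the free-boundary problem `(g g''')' = 2 g - √g - (3/4) z g'` on `(0, z₀)` with
`g'(0) = g'''(0) = 0` and `g, g', g g''' → 0` at `z₀`. Derivatives on `[0, z₀)` are one-sided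
at `0`; inside `(0, z₀)` they are the ordinary derivatives. -/
structure IsClassicalSolution (z₀ : ℝ) (g : ℝ → ℝ) : Prop where
  nonneg : ∀ z ∈ Icc 0 z₀, 0 ≤ g z
  continuousOn : ContinuousOn g (Icc 0 z₀)
  contDiffOn : ContDiffOn ℝ 3 g (Ico 0 z₀)
  flux_contDiffOn :
    ContDiffOn ℝ 1 (fun z => g z * iteratedDerivWithin 3 g (Ico 0 z₀) z) (Ioo 0 z₀)
  ode : ∀ z ∈ Ioo 0 z₀,
    deriv (fun y => g y * iteratedDerivWithin 3 g (Ico 0 z₀) y) z
      = 2 * g z - √(g z) - 3 / 4 * z * derivWithin g (Ico 0 z₀) z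
  deriv_zero : derivWithin g (Ico 0 z₀) 0 = 0
  third_deriv_zero : iteratedDerivWithin 3 g (Ico 0 z₀) 0 = 0
  contact : Tendsto g (𝓝[<] z₀) (𝓝 0)
  contact_angle : Tendsto (derivWithin g (Ico 0 z₀)) (𝓝[<] z₀) (𝓝 0)
  contact_flux :
    Tendsto (fun z => g z * iteratedDerivWithin 3 g (Ico 0 z₀) z) (𝓝[<] z₀) (𝓝 0)

end Pool.Agent.Lib.ThinFilm
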