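import Pool.Agent.Lib.MP_98503b_an.Basic

/-!
Behaviour of a solution near the right end `β` of a component of its positivity set.
-/

set_option autoImplicit false

namespace Pool.Agent.Lib.ThinFilm

open Set Filter Topology

/-- The differential relations on an open interval `(α, β)` on which `g` is positive, together
with the contact conditions at `β`. -/
structure Comp (α β : ℝ) (g g1 g2 g3 : ℝ → ℝ) : Prop where
  hα : 0 ≤ α
  hαβ : α < β
  d0 : ∀ z ∈ Ioo α β, HasDerivAt g (g1 z) z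
  d1 : ∀ z ∈ Ioo α β, HasDerivAt g1 (g2 z) z
  d2 : ∀ z ∈ Ioo α β, HasDerivAt g2 (g3 z) z
  dH : ∀ z ∈ Ioo α β, HasDerivAt (fun z => g z * g3 z)
    (2 * g z - √(g z) - 3 / 4 * z * g1 z) z
  pos : ∀ z ∈ Ioo α β, 0 < g z
  l0 : Tendsto g (𝓝[<] β) (𝓝 0)
  l1 : Tendsto g1 (𝓝[<] β) (𝓝 0)
  l3 : Tendsto (fun z => g z * g3 z) (𝓝[<] β) (𝓝 0)

variable {α β : ℝ} {g g1 g2 g3 : ℝ → ℝ}

lemma Comp.hβ (h : Comp α β g g1 g2 g3) : 0 < β := h.hα.trans_lt h.hαβ

lemma sqrt_bounds {x : ℝ} (h0 : 0 < x) (h1 : x < 1 / 100) :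
    11 / 4 * x < √x ∧ 4 * x < √x ∧ 0 < √x := by
  have hs : 0 < √x := Real.sqrt_pos.mpr h0
  have hsq : √x * √x = x := Real.mul_self_sqrt h0.le
  have hlt : √x < 1 / 10 := by
    rw [show (1 / 10 : ℝ) = √(1 / 100) by
      rw [show (1 / 100 : ℝ) = (1 / 10) ^ 2 by norm_num, Real.sqrt_sq (by norm_num)]]
    exact Real.sqrt_lt_sqrt h0.le h1
  refine ⟨?_, ?_, hs⟩ <;> nlinarith

/-- Near `β` the function `g` is small. -/
lemma Comp.small (h : Comp α β g g1 g2 g3) :
    ∃ c, α < c ∧ c < β ∧ ∀ z ∈ Ioo c β, 0 < g z ∧ g z < 1 / 100 := by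
  have h1 : ∀ᶠ z in 𝓝[<] β, g z < 1 / 100 := h.l0.eventually (gt_mem_nhds (by norm_num))
  have h2 : ∀ᶠ z in 𝓝[<] β, z ∈ Ioo α β := Ioo_mem_nhdsLT h.hαβ
  have h3 := h1.and h2
  obtain ⟨l, hl, hl2⟩ := (mem_nhdsLT_iff_exists_Ioo_subset' h.hαβ).mp h3
  refine ⟨max l ((α + β) / 2), ?_, ?_, ?_⟩
  · exact lt_max_of_lt_right (by linarith [h.hαβ])
  · exact max_lt hl (by linarith [h.hαβ])
  · intro z hz
    have hz2 := hl2 ⟨(le_max_left _ _).trans_lt hz.1, hz.2⟩
    exact ⟨h.pos z hz2.2, hz2.1⟩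

/-- `J = H + (3/4) z g`. -/
lemma Comp.dJ (h : Comp α β g g1 g2 g3) : ∀ z ∈ Ioo α β,
    HasDerivAt (fun z => g z * g3 z + 3 / 4 * z * g z) (11 / 4 * g z - √(g z)) z := by
  intro z hz
  have e1 := h.dH z hz
  have e2 := ((hasDerivAt_id z).const_mul (3 / 4 : ℝ)).mul (h.d0 z hz)
  have e3 := e1.add e2
  refine e3.congr_deriv ?_
  simp only [id]
  ring

lemma Comp.lJ (h : Comp α β g g1 g2 g3) :
    Tendsto (fun z => g z * g3 z + 3 / 4 * z * g z) (𝓝[<] β) (𝓝 0) := by
  have e1 := h.l3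
  have e2 : Tendsto (fun z : ℝ => 3 / 4 * z) (𝓝[<] β) (𝓝 (3 / 4 * β)) :=
    ((continuous_const.mul continuous_id).tendsto β).mono_left nhdsWithin_le_nhds
  have e3 := e1.add (e2.mul h.l0)
  simpa using e3

/-- Landau type inequality. -/
lemma landau {z t K : ℝ} (hzt : z < t) (hK : 0 < K)
    (d0 : ∀ y ∈ Ico z t, HasDerivAt g (g1 y) y)
    (d1 : ∀ y ∈ Ico z t, HasDerivAt g1 (g2 y) y)
    (h2 : ∀ y ∈ Ico z t, g2 y ≤ K)
    (hpos : ∀ y ∈ Ico z t, 0 < g y)
    (hneg : g1 z < 0) (hst : z + (-g1 z) / K < t) : g1 z ^ 2 < 2 * K * g z := by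
  set y₀ := z + (-g1 z) / K with hy₀
  have hzy : z < y₀ := by
    have : 0 < (-g1 z) / K := div_pos (by linarith) hK
    linarith
  -- first derivative estimate
  have hA : ∀ y ∈ Ico z t, g1 y ≤ g1 z + K * (y - z) := by
    intro y hy
    have := le_of_deriv_nonneg (f := fun y => g1 z + K * (y - z) - g1 y)
      (f' := fun y => K - g2 y) (x := z) (y := y) hy.1 ?_ ?_ ?_
    · simp only [sub_self, mul_zero, add_zero] at this
      linarith
    · intro w hw
      have hd := (d1 w ⟨hw.1, hw.2.trans_lt hy.2⟩)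
      exact ((((hasDerivAt_id w).sub_const z).const_mul K).const_add (g1 z)
        |>.sub hd).continuousAt.continuousWithinAt
    · intro w hw
      have hd := (d1 w ⟨hw.1.le, hw.2.trans hy.2⟩)
      have := (((hasDerivAt_id w).sub_const z).const_mul K).const_add (g1 z) |>.sub hd
      refine this.congr_deriv ?_
      ring
    · intro w hw
      have := h2 w ⟨hw.1.le, hw.2.trans hy.2⟩
      linarith
  have hB : g y₀ ≤ g z + g1 z * (y₀ - z) + K / 2 * (y₀ - z) ^ 2 := by
    have := le_of_deriv_nonneg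
      (f := fun y => g z + g1 z * (y - z) + K / 2 * (y - z) ^ 2 - g y)
      (f' := fun y => g1 z + K * (y - z) - g1 y) (x := z) (y := y₀) hzy.le ?_ ?_ ?_
    · simp only [sub_self, mul_zero, add_zero] at this
      have h0 : (0 : ℝ) ^ 2 = 0 := by norm_num
      rw [h0, mul_zero, add_zero, sub_self] at this
      linarith
    · intro w hw
      have hd := (d0 w ⟨hw.1, hw.2.trans_lt hst⟩)
      have hc : ContinuousAt (fun y => g z + g1 z * (y - z) + K / 2 * (y - z) ^ 2) w := by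
        fun_prop
      exact (hc.sub hd.continuousAt).continuousWithinAt
    · intro w hw
      have hd := (d0 w ⟨hw.1.le, hw.2.trans hst⟩)
      have e1 := ((hasDerivAt_id w).sub_const z).const_mul (g1 z)
      have e2 := ((((hasDerivAt_id w).sub_const z).pow 2).const_mul (K / 2))
      have e3 := ((e1.const_add (g z)).add e2).sub hd
      refine e3.congr_deriv ?_
      simp only [id]
      push_cast
      ring
    · intro w hw
      have := hA w ⟨hw.1.le, hw.2.trans hst⟩
      linarith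
  have hC : 0 < g y₀ := hpos y₀ ⟨hzy.le, hst⟩
  have hD : y₀ - z = (-g1 z) / K := by rw [hy₀]; ring
  rw [hD] at hB
  have hE : g1 z * (-g1 z / K) + K / 2 * (-g1 z / K) ^ 2 = - (g1 z ^ 2 / (2 * K)) := by
    field_simp
    ring
  have hF : g1 z ^ 2 / (2 * K) < g z := by linarith
  rw [div_lt_iff₀ (by positivity)] at hF
  linarith

/-- If the solution were too flat at `β` it would be negative near `β`. -/
lemma Comp.not_flat (h : Comp α β g g1 g2 g3) (c : ℝ) (hc : α < c) (hcβ : c < β)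
    (hsm : ∀ z ∈ Ioo c β, 0 < g z ∧ g z < 1 / 100)
    (hflat : ∀ z ∈ Ioo c β, g2 z ≤ 3 / 4 * β * (β - z)) : False := by
  have hβ := h.hβ
  have sub : ∀ z ∈ Ioo c β, z ∈ Ioo α β := fun z hz => ⟨hc.trans hz.1, hz.2⟩
  -- lower bound of g1
  have hg1 : ∀ z ∈ Ioo c β, 0 ≤ g1 z + 3 / 8 * β * (β - z) ^ 2 := by
    refine ge_lim (f := fun z => g1 z + 3 / 8 * β * (β - z) ^ 2)
      (f' := fun z => g2 z - 3 / 4 * β * (β - z)) ?_ ?_ ?_
    · intro z hz
      have e1 := h.d1 z (sub z hz)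
      have e2 := (((hasDerivAt_id z).const_sub β).pow 2).const_mul (3 / 8 * β)
      refine (e1.add e2).congr_deriv ?_
      simp only [id]
      push_cast
      ring
    · intro z hz
      have := hflat z hz
      linarith
    · have e1 := h.l1
      have e2 : Tendsto (fun z : ℝ => 3 / 8 * β * (β - z) ^ 2) (𝓝[<] β)
          (𝓝 (3 / 8 * β * (β - β) ^ 2)) := by
        have : Continuous (fun z : ℝ => 3 / 8 * β * (β - z) ^ 2) := by fun_prop
        exact (this.tendsto β).mono_left nhdsWithin_le_nhds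
      have e3 := e1.add e2
      simpa using e3
  -- Landau
  have hL : ∀ z ∈ Ioo c β, g1 z < 0 → g1 z ^ 2 < 3 / 2 * β * (β - z) * g z := by
    intro z hz hneg
    have hK : 0 < 3 / 4 * β * (β - z) := by
      have : 0 < β - z := by linarith [hz.2]
      positivity
    have := landau (g := g) (g1 := g1) (g2 := g2) (z := z) (t := β)
      (K := 3 / 4 * β * (β - z)) hz.2 hK ?_ ?_ ?_ ?_ hneg ?_
    · linarith
    · exact fun y hy => h.d0 y (sub y ⟨hz.1.trans_le hy.1, hy.2⟩)
    · exact fun y hy => h.d1 y (sub y ⟨hz.1.trans_le hy.1, hy.2⟩)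
    · intro y hy
      have h1 := hflat y ⟨hz.1.trans_le hy.1, hy.2⟩
      have h2 : 3 / 4 * β * (β - y) ≤ 3 / 4 * β * (β - z) := by
        have := hy.1
        have : β - y ≤ β - z := by linarith
        exact mul_le_mul_of_nonneg_left this (by positivity)
      linarith
    · exact fun y hy => h.pos y (sub y ⟨hz.1.trans_le hy.1, hy.2⟩)
    · have h1 := hg1 z hz
      have hz2 : 0 < β - z := by linarith [hz.2]
      have h2 : (-g1 z) / (3 / 4 * β * (β - z)) ≤ (β - z) / 2 := by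
        rw [div_le_iff₀ hK]
        nlinarith
      linarith
  -- choose a smaller interval
  set d := max c (β - 8 / 27 / β ^ 3) with hd
  have hβ3 : 0 < 8 / 27 / β ^ 3 := by positivity
  have hdβ : d < β := max_lt hcβ (by linarith)
  have hcd : c ≤ d := le_max_left _ _
  have subd : ∀ z ∈ Ioo d β, z ∈ Ioo c β := fun z hz => ⟨hcd.trans_lt hz.1, hz.2⟩
  have hH' : ∀ z ∈ Ioo d β, 2 * g z - √(g z) - 3 / 4 * z * g1 z < 0 := by
    intro z hz
    have hzc := subd z hz
    obtain ⟨hp, hs⟩ := hsm z hzc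
    obtain ⟨_, hb, hsp⟩ := sqrt_bounds hp hs
    have hz0 : 0 < z := by linarith [h.hα, (sub z hzc).1]
    by_cases hneg : g1 z < 0
    · have h1 := hL z hzc hneg
      have h2 : 3 / 4 * z * (-g1 z) ≤ 1 / 2 * √(g z) := by
        apply le_of_sq_le_sq _ (by positivity)
        have hs2 : √(g z) ^ 2 = g z := Real.sq_sqrt hp.le
        have h3 : β - z < 8 / 27 / β ^ 3 := by
          have := (le_max_right c (β - 8 / 27 / β ^ 3)).trans_lt hz.1
          linarith
        have h4 : (β - z) * β ^ 3 < 8 / 27 := by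
          rwa [lt_div_iff₀ (by positivity)] at h3
        have h5 : z ^ 2 ≤ β ^ 2 := by
          have := hz.2
          nlinarith
        calc (3 / 4 * z * (-g1 z)) ^ 2 = 9 / 16 * z ^ 2 * g1 z ^ 2 := by ring
          _ ≤ 9 / 16 * β ^ 2 * (3 / 2 * β * (β - z) * g z) := by
              have : g1 z ^ 2 ≤ 3 / 2 * β * (β - z) * g z := h1.le
              have h6 : 0 ≤ g1 z ^ 2 := sq_nonneg _
              calc 9 / 16 * z ^ 2 * g1 z ^ 2 ≤ 9 / 16 * β ^ 2 * g1 z ^ 2 := by
                    have : 9 / 16 * z ^ 2 ≤ 9 / 16 * β ^ 2 := by linarith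
                    exact mul_le_mul_of_nonneg_right this h6
                _ ≤ _ := by
                    exact mul_le_mul_of_nonneg_left h1.le (by positivity)
          _ = 27 / 32 * ((β - z) * β ^ 3) * g z := by ring
          _ ≤ 27 / 32 * (8 / 27) * g z := by
              have : 27 / 32 * ((β - z) * β ^ 3) ≤ 27 / 32 * (8 / 27) := by linarith
              exact mul_le_mul_of_nonneg_right this hp.le
          _ = (1 / 2 * √(g z)) ^ 2 := by
              rw [mul_pow, hs2]; ring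
      nlinarith
    · push Not at hneg
      have : 0 ≤ 3 / 4 * z * g1 z := by positivity
      linarith
  -- H positive
  have hH : ∀ z ∈ Ioo d β, 0 < g z * g3 z :=
    gt_lim (fun z hz => h.dH z (sub z (subd z hz))) hH' h.l3
  have hg3 : ∀ z ∈ Ioo d β, 0 < g3 z := by
    intro z hz
    exact (mul_pos_iff_of_pos_left (h.pos z (sub z (subd z hz)))).mp (hH z hz)
  -- g2 ≤ 0
  have hg2 : ∀ z ∈ Ioo d β, g2 z < 0 := by
    intro z hz
    set y := (z + β) / 2 with hy
    have hzy : z < y := by rw [hy]; linarith [hz.2]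
    have hyβ : y < β := by rw [hy]; linarith [hz.2]
    have mono : ∀ x ∈ Ioo d β, ∀ w ∈ Ioo d β, x < w → g2 x < g2 w := by
      intro x hx w hw hxw
      refine lt_of_deriv_pos (f' := g3) hxw ?_ ?_ ?_
      · intro v hv
        exact (h.d2 v (sub v (subd v ⟨hx.1.trans_le hv.1,
          hv.2.trans_lt hw.2⟩))).continuousAt.continuousWithinAt
      · intro v hv
        exact h.d2 v (sub v (subd v ⟨hx.1.trans hv.1, hv.2.trans hw.2⟩))
      · intro v hv
        exact hg3 v ⟨hx.1.trans hv.1, hv.2.trans hw.2⟩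
    have h1 : g2 z < g2 y := mono z hz y ⟨hz.1.trans hzy, hyβ⟩ hzy
    have h2 : g2 y ≤ 0 := by
      have e2 : Tendsto (fun z : ℝ => 3 / 4 * β * (β - z)) (𝓝[<] β)
          (𝓝 (3 / 4 * β * (β - β))) := by
        have : Continuous (fun z : ℝ => 3 / 4 * β * (β - z)) := by fun_prop
        exact (this.tendsto β).mono_left nhdsWithin_le_nhds
      rw [sub_self, mul_zero] at e2
      apply ge_of_tendsto e2
      have hm : Ioo y β ∈ 𝓝[<] β := Ioo_mem_nhdsLT hyβ
      filter_upwards [hm] with w hw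
      have hw' : w ∈ Ioo d β := ⟨(hz.1.trans hzy).trans hw.1, hw.2⟩
      have a1 := mono y ⟨hz.1.trans hzy, hyβ⟩ w hw' hw.1
      have a2 := hflat w (subd w hw')
      linarith
    linarith
  have hg1' : ∀ z ∈ Ioo d β, 0 < g1 z :=
    gt_lim (fun z hz => h.d1 z (sub z (subd z hz))) hg2 h.l1
  have hg' : ∀ z ∈ Ioo d β, g z < 0 :=
    lt_lim (fun z hz => h.d0 z (sub z (subd z hz))) hg1' h.l0
  have hmid : (d + β) / 2 ∈ Ioo d β := ⟨by linarith, by linarith⟩
  have a1 := hg' _ hmid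
  have a2 := h.pos _ (sub _ (subd _ hmid))
  linarith

end Pool.Agent.Lib.ThinFilm
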