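import Pool.Agent.Lib.MP_98503b_an.Interface

/-!
The Lyapunov function of the problem and its behaviour at the interface.
-/

set_option autoImplicit false

namespace Pool.Agent.Lib.ThinFilm

open Set Filter Topology

variable {α β : ℝ} {g g1 g2 g3 : ℝ → ℝ}

/-- `b = a'` for `a = √g`. -/
noncomputable def bb (g g1 : ℝ → ℝ) (z : ℝ) : ℝ := g1 z / (2 * √(g z))

/-- `c = a''` for `a = √g`. -/
noncomputable def cc (g g1 g2 : ℝ → ℝ) (z : ℝ) : ℝ :=
  (g2 z - 2 * bb g g1 z ^ 2) / (2 * √(g z))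

/-- `R = 2a - 1 - (3/2) z a'`. -/
noncomputable def RR (g g1 : ℝ → ℝ) (z : ℝ) : ℝ := 2 * √(g z) - 1 - 3 / 2 * z * bb g g1 z

/-- The Lyapunov function `H R + a³ a'' ((3/2) z a'' - a')`. -/
noncomputable def LL (g g1 g2 g3 : ℝ → ℝ) (z : ℝ) : ℝ :=
  g z * g3 z * RR g g1 z
    + √(g z) ^ 3 * cc g g1 g2 z * (3 / 2 * z * cc g g1 g2 z - bb g g1 z)

lemma hasDerivAt_a {z : ℝ} (d0 : HasDerivAt g (g1 z) z) (hp : 0 < g z) :
    HasDerivAt (fun y => √(g y)) (bb g g1 z) z := d0.sqrt hp.ne'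

lemma hasDerivAt_b {z : ℝ} (d0 : HasDerivAt g (g1 z) z) (d1 : HasDerivAt g1 (g2 z) z)
    (hp : 0 < g z) : HasDerivAt (bb g g1) (cc g g1 g2 z) z := by
  have ha := hasDerivAt_a d0 hp
  have hs : 0 < √(g z) := Real.sqrt_pos.mpr hp
  have h2 := d1.div (ha.const_mul 2) (by positivity)
  have h3 : HasDerivAt (bb g g1)
      ((g2 z * (2 * √(g z)) - g1 z * (2 * bb g g1 z)) / (2 * √(g z)) ^ 2) z := h2
  refine h3.congr_deriv ?_
  have hb : g1 z = 2 * √(g z) * bb g g1 z := by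
    unfold bb
    field_simp
  unfold cc
  rw [div_eq_div_iff (by positivity) (by positivity)]
  rw [hb]
  ring

lemma hasDerivAt_c {z : ℝ} (d0 : HasDerivAt g (g1 z) z) (d1 : HasDerivAt g1 (g2 z) z)
    (d2 : HasDerivAt g2 (g3 z) z)
    (hp : 0 < g z) : HasDerivAt (cc g g1 g2)
      (g z * g3 z / (2 * √(g z) ^ 3) - 3 * bb g g1 z * cc g g1 g2 z / √(g z)) z := by
  have ha := hasDerivAt_a d0 hp
  have hb := hasDerivAt_b d0 d1 hp
  have hs : 0 < √(g z) := Real.sqrt_pos.mpr hp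
  have hsq : √(g z) ^ 2 = g z := Real.sq_sqrt hp.le
  have h2 := (d2.sub ((hb.pow 2).const_mul 2)).div (ha.const_mul 2) (by positivity)
  have h3 : HasDerivAt (cc g g1 g2)
      (((g3 z - 2 * ((2 : ℕ) * bb g g1 z ^ (2 - 1) * cc g g1 g2 z)) * (2 * √(g z))
        - (g2 z - 2 * bb g g1 z ^ 2) * (2 * bb g g1 z)) / (2 * √(g z)) ^ 2) z := h2
  refine h3.congr_deriv ?_
  have hc : g2 z - 2 * bb g g1 z ^ 2 = 2 * √(g z) * cc g g1 g2 z := by
    unfold cc
    field_simp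
  rw [hc]
  have hg : g z * g3 z / (2 * √(g z) ^ 3) = g3 z / (2 * √(g z)) := by
    rw [div_eq_div_iff (by positivity) (by positivity)]
    calc g z * g3 z * (2 * √(g z)) = √(g z) ^ 2 * g3 z * (2 * √(g z)) := by rw [hsq]
      _ = _ := by ring
  rw [hg]
  push_cast
  field_simp
  ring

lemma hasDerivAt_R {z : ℝ} (d0 : HasDerivAt g (g1 z) z) (d1 : HasDerivAt g1 (g2 z) z)
    (hp : 0 < g z) : HasDerivAt (RR g g1)
      (1 / 2 * bb g g1 z - 3 / 2 * z * cc g g1 g2 z) z := by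
  have ha := hasDerivAt_a d0 hp
  have hb := hasDerivAt_b d0 d1 hp
  have h := ((ha.const_mul 2).sub_const 1).sub
    (((hasDerivAt_id z).const_mul (3 / 2 : ℝ)).mul hb)
  have h3 : HasDerivAt (RR g g1)
      (2 * bb g g1 z - (3 / 2 * 1 * bb g g1 z + 3 / 2 * z * cc g g1 g2 z)) z := h
  refine h3.congr_deriv ?_
  ring

/-- The key identity: the derivative of the Lyapunov function. -/
lemma hasDerivAt_L {z : ℝ} (d0 : HasDerivAt g (g1 z) z) (d1 : HasDerivAt g1 (g2 z) z)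
    (d2 : HasDerivAt g2 (g3 z) z)
    (dH : HasDerivAt (fun z => g z * g3 z) (2 * g z - √(g z) - 3 / 4 * z * g1 z) z)
    (hp : 0 < g z) : HasDerivAt (LL g g1 g2 g3)
      (√(g z) * RR g g1 z ^ 2 + 1 / 2 * √(g z) ^ 3 * cc g g1 g2 z ^ 2
        - 9 / 2 * z * √(g z) ^ 2 * bb g g1 z * cc g g1 g2 z ^ 2) z := by
  have ha := hasDerivAt_a d0 hp
  have hb := hasDerivAt_b d0 d1 hp
  have hc := hasDerivAt_c d0 d1 d2 hp
  have hR := hasDerivAt_R d0 d1 hp
  have hs : 0 < √(g z) := Real.sqrt_pos.mpr hp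
  have hsq : √(g z) ^ 2 = g z := Real.sq_sqrt hp.le
  have h1 := dH.mul hR
  have h2 := ((ha.pow 3).mul hc).mul
    ((((hasDerivAt_id z).const_mul (3 / 2 : ℝ)).mul hc).sub hb)
  have h3 := h1.add h2
  have h4 : HasDerivAt (LL g g1 g2 g3) _ z := h3
  refine h4.congr_deriv ?_
  have hg1 : g1 z = 2 * √(g z) * bb g g1 z := by
    unfold bb
    field_simp
  simp only [id, Pi.mul_apply, Pi.pow_apply, Pi.sub_apply]
  have hdH : 2 * g z - √(g z) - 3 / 4 * z * g1 z = √(g z) * RR g g1 z := by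
    rw [hg1]
    unfold RR
    have : g z = √(g z) * √(g z) := (Real.mul_self_sqrt hp.le).symm
    nlinarith
  rw [hdH]
  set a := √(g z) with hadef
  set b := bb g g1 z with hbdef
  set c := cc g g1 g2 z with hcdef
  set r := RR g g1 z with hrdef
  set H := g z * g3 z with hHdef
  push_cast
  field_simp
  ring

lemma L_deriv_nonneg {z a b c r : ℝ} (hz : 0 ≤ z) (ha : 0 < a) (hb : b ≤ 0) :
    0 ≤ a * r ^ 2 + 1 / 2 * a ^ 3 * c ^ 2 - 9 / 2 * z * a ^ 2 * b * c ^ 2 := by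
  have h1 : 0 ≤ a * r ^ 2 := by positivity
  have h2 : 0 ≤ 1 / 2 * a ^ 3 * c ^ 2 := by positivity
  have h3 : 0 ≤ 9 / 2 * z * a ^ 2 * (-b) * c ^ 2 := by
    have : 0 ≤ -b := by linarith
    positivity
  linarith

lemma L_deriv_zero {z a b c r : ℝ} (hz : 0 ≤ z) (ha : 0 < a) (hb : b ≤ 0)
    (h : a * r ^ 2 + 1 / 2 * a ^ 3 * c ^ 2 - 9 / 2 * z * a ^ 2 * b * c ^ 2 = 0) :
    r = 0 ∧ c = 0 := by
  have h1 : 0 ≤ a * r ^ 2 := by positivity
  have h2 : 0 ≤ 1 / 2 * a ^ 3 * c ^ 2 := by positivity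
  have h3 : 0 ≤ 9 / 2 * z * a ^ 2 * (-b) * c ^ 2 := by
    have : 0 ≤ -b := by linarith
    positivity
  have e1 : a * r ^ 2 = 0 := by linarith
  have e2 : 1 / 2 * a ^ 3 * c ^ 2 = 0 := by linarith
  constructor
  · rcases mul_eq_zero.mp e1 with h | h
    · exact absurd h ha.ne'
    · exact pow_eq_zero_iff (two_ne_zero) |>.mp h
  · rcases mul_eq_zero.mp e2 with h | h
    · have : 0 < 1 / 2 * a ^ 3 := by positivity
      exact absurd h this.ne'
    · exact pow_eq_zero_iff (two_ne_zero) |>.mp h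

end Pool.Agent.Lib.ThinFilm
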