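import Pool.Agent.Lib.MP_98503b_an.Core
import Pool.Agent.Lib.MP_98503b_an.Defs

/-!
From a classical solution to a component of its positivity set.
-/

set_option autoImplicit false

namespace Pool.Agent.Lib.ThinFilm

open Set Filter Topology

variable {z₀ : ℝ} {g : ℝ → ℝ}

lemma uniq (z₀ : ℝ) : UniqueDiffOn ℝ (Ico 0 z₀) := uniqueDiffOn_Ico 0 z₀

lemma iter_hasDerivAt (hc : ContDiffOn ℝ 3 g (Ico 0 z₀)) {m : ℕ} (hm : m < 3) {z : ℝ}
    (hz : z ∈ Ioo 0 z₀) :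
    HasDerivAt (iteratedDerivWithin m g (Ico 0 z₀))
      (iteratedDerivWithin (m + 1) g (Ico 0 z₀) z) z := by
  have hmem : Ico 0 z₀ ∈ 𝓝 z := Ico_mem_nhds hz.1 hz.2
  have hd : DifferentiableOn ℝ (iteratedDerivWithin m g (Ico 0 z₀)) (Ico 0 z₀) :=
    hc.differentiableOn_iteratedDerivWithin (by exact_mod_cast hm) (uniq z₀)
  have h1 := (hd z ⟨hz.1.le, hz.2⟩).hasDerivWithinAt
  have h2 := h1.hasDerivAt hmem
  rw [iteratedDerivWithin_succ]
  exact h2

lemma iter_cont (hc : ContDiffOn ℝ 3 g (Ico 0 z₀)) {m : ℕ} (hm : m ≤ 3) :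
    ContinuousOn (iteratedDerivWithin m g (Ico 0 z₀)) (Ico 0 z₀) :=
  hc.continuousOn_iteratedDerivWithin (by exact_mod_cast hm) (uniq z₀)

theorem IsClassicalSolution.eq_zero (h : IsClassicalSolution z₀ g) (hz₀ : 0 < z₀) :
    ∀ z ∈ Icc 0 z₀, g z = 0 := by
  by_contra hcon
  push Not at hcon
  obtain ⟨zp, hzp, hgp⟩ := hcon
  set g1 := derivWithin g (Ico 0 z₀) with hg1
  set g2 := iteratedDerivWithin 2 g (Ico 0 z₀) with hg2
  set g3 := iteratedDerivWithin 3 g (Ico 0 z₀) with hg3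
  have e1 : iteratedDerivWithin 1 g (Ico 0 z₀) = g1 := iteratedDerivWithin_one
  have e0 : iteratedDerivWithin 0 g (Ico 0 z₀) = g := iteratedDerivWithin_zero
  have d0 : ∀ z ∈ Ioo 0 z₀, HasDerivAt g (g1 z) z := by
    intro z hz
    have := iter_hasDerivAt h.contDiffOn (m := 0) (by norm_num) hz
    rw [e0] at this
    simpa [e1] using this
  have d1 : ∀ z ∈ Ioo 0 z₀, HasDerivAt g1 (g2 z) z := by
    intro z hz
    have := iter_hasDerivAt h.contDiffOn (m := 1) (by norm_num) hz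
    rw [e1] at this
    exact this
  have d2 : ∀ z ∈ Ioo 0 z₀, HasDerivAt g2 (g3 z) z := by
    intro z hz
    exact iter_hasDerivAt h.contDiffOn (m := 2) (by norm_num) hz
  have dH : ∀ z ∈ Ioo 0 z₀, HasDerivAt (fun z => g z * g3 z)
      (2 * g z - √(g z) - 3 / 4 * z * g1 z) z := by
    intro z hz
    have h1 : DifferentiableAt ℝ (fun z => g z * g3 z) z :=
      (h.flux_contDiffOn.differentiableOn (by norm_num)).differentiableAt
        (Ioo_mem_nhds hz.1 hz.2)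
    have h2 := h1.hasDerivAt
    rw [h.ode z hz] at h2
    exact h2
  have c0 : ContinuousOn g (Ico 0 z₀) := h.contDiffOn.continuousOn
  have c1 : ContinuousOn g1 (Ico 0 z₀) := by
    have := iter_cont h.contDiffOn (m := 1) (by norm_num)
    rwa [e1] at this
  have c2 : ContinuousOn g2 (Ico 0 z₀) := iter_cont h.contDiffOn (m := 2) (by norm_num)
  have c3 : ContinuousOn g3 (Ico 0 z₀) := iter_cont h.contDiffOn (m := 3) (le_refl _)
  have hgz₀ : g z₀ = 0 := by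
    have h1 : Tendsto g (𝓝[<] z₀) (𝓝 (g z₀)) := by
      have h2 : ContinuousWithinAt g (Icc 0 z₀) z₀ := h.continuousOn z₀ ⟨hz₀.le, le_refl _⟩
      have h3 : 𝓝[<] z₀ ≤ 𝓝[Icc 0 z₀] z₀ := by
        rw [← nhdsWithin_Ioo_eq_nhdsLT hz₀]
        exact nhdsWithin_mono _ Ioo_subset_Icc_self
      exact h2.tendsto.mono_left h3
    exact tendsto_nhds_unique h1 h.contact
  have hpos_p : 0 < g zp := lt_of_le_of_ne (h.nonneg zp hzp) (Ne.symm hgp)
  have hzp2 : zp < z₀ := by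
    rcases hzp.2.lt_or_eq with hlt | heq
    · exact hlt
    · rw [heq] at hgp
      exact absurd hgz₀ hgp
  -- an interior positive point
  obtain ⟨zq, hzq, hpos_q⟩ : ∃ zq ∈ Ioo 0 z₀, 0 < g zq := by
    rcases hzp.1.lt_or_eq with hlt | heq
    · exact ⟨zp, ⟨hlt, hzp2⟩, hpos_p⟩
    · subst heq
      have h1 : ContinuousWithinAt g (Ico 0 z₀) 0 := c0 0 ⟨le_refl _, hz₀⟩
      have h2 : 𝓝[>] (0 : ℝ) ≤ 𝓝[Ico 0 z₀] 0 := by
        rw [← nhdsWithin_Ioo_eq_nhdsGT hz₀]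
        exact nhdsWithin_mono _ Ioo_subset_Ico_self
      have h3 : Tendsto g (𝓝[>] 0) (𝓝 (g 0)) := h1.tendsto.mono_left h2
      have h4 : ∀ᶠ z in 𝓝[>] 0, 0 < g z := h3.eventually (lt_mem_nhds hpos_p)
      have h5 : ∀ᶠ z in 𝓝[>] (0 : ℝ), z ∈ Ioo 0 z₀ := Ioo_mem_nhdsGT hz₀
      obtain ⟨w, hw⟩ := (h4.and h5).exists
      exact ⟨w, hw.2, hw.1⟩
  -- the right end
  have hcompβ : IsCompact (Icc zq z₀ ∩ g ⁻¹' {0}) :=
    isCompact_Icc.of_isClosed_subset
      ((h.continuousOn.mono (Icc_subset_Icc hzq.1.le le_rfl)).preimage_isClosed_of_isClosed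
        isClosed_Icc isClosed_singleton) inter_subset_left
  obtain ⟨β, hβ, hβmin⟩ := hcompβ.exists_isLeast ⟨z₀, ⟨hzq.2.le, le_refl _⟩, hgz₀⟩
  have hgβ : g β = 0 := hβ.2
  have hqβ : zq < β := by
    rcases hβ.1.1.lt_or_eq with hlt | heq
    · exact hlt
    · rw [← heq] at hgβ
      linarith
  -- interior zeros are critical points
  have crit : ∀ z ∈ Ioo 0 z₀, g z = 0 → g1 z = 0 := by
    intro z hz hgz
    have hmin : IsLocalMin g z := by
      filter_upwards [Ioo_mem_nhds hz.1 hz.2] with y hy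
      rw [hgz]
      exact h.nonneg y ⟨hy.1.le, hy.2.le⟩
    exact hmin.hasDerivAt_eq_zero (d0 z hz)
  -- the left end
  obtain ⟨α, hα0, hαq, hαpos, hαg1, hαg⟩ : ∃ α, 0 ≤ α ∧ α < zq ∧
      (∀ z ∈ Ioc α zq, 0 < g z) ∧ g1 α = 0 ∧ (0 < α → g α = 0) := by
    by_cases hne : (Icc 0 zq ∩ g ⁻¹' {0}).Nonempty
    · have hcompα : IsCompact (Icc 0 zq ∩ g ⁻¹' {0}) :=
        isCompact_Icc.of_isClosed_subset
          ((h.continuousOn.mono
            (Icc_subset_Icc le_rfl hzq.2.le)).preimage_isClosed_of_isClosed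
            isClosed_Icc isClosed_singleton) inter_subset_left
      obtain ⟨α, hα, hαmax⟩ := hcompα.exists_isGreatest hne
      have hgα : g α = 0 := hα.2
      have hαq : α < zq := by
        rcases hα.1.2.lt_or_eq with hlt | heq
        · exact hlt
        · rw [heq] at hgα
          linarith
      refine ⟨α, hα.1.1, hαq, ?_, ?_, fun _ => hgα⟩
      · intro z hz
        have h1 := h.nonneg z ⟨hα.1.1.trans hz.1.le, hz.2.trans hzq.2.le⟩
        rcases h1.lt_or_eq with hlt | heq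
        · exact hlt
        · have := hαmax ⟨⟨hα.1.1.trans hz.1.le, hz.2⟩, heq.symm⟩
          linarith [hz.1]
      · rcases hα.1.1.lt_or_eq with hlt | heq
        · exact crit α ⟨hlt, hαq.trans hzq.2⟩ hgα
        · rw [← heq]
          exact h.deriv_zero
    · refine ⟨0, le_refl _, hzq.1, ?_, h.deriv_zero, fun hlt => absurd hlt (lt_irrefl _)⟩
      intro z hz
      have h1 := h.nonneg z ⟨hz.1.le, hz.2.trans hzq.2.le⟩
      rcases h1.lt_or_eq with hlt | heq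
      · exact hlt
      · exact absurd ⟨z, ⟨hz.1.le, hz.2⟩, heq.symm⟩ hne
  have hβz₀ : β ≤ z₀ := hβ.1.2
  have sub : ∀ z ∈ Ioo α β, z ∈ Ioo 0 z₀ := fun z hz =>
    ⟨hα0.trans_lt hz.1, hz.2.trans_le hβz₀⟩
  have subc : Ico α β ⊆ Ico 0 z₀ := fun z hz => ⟨hα0.trans hz.1, hz.2.trans_le hβz₀⟩
  have hpos : ∀ z ∈ Ioo α β, 0 < g z := by
    intro z hz
    by_cases hzq' : z ≤ zq
    · exact hαpos z ⟨hz.1, hzq'⟩
    · push Not at hzq'
      have h1 := h.nonneg z ⟨(sub z hz).1.le, (sub z hz).2.le⟩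
      rcases h1.lt_or_eq with hlt | heq
      · exact hlt
      · have := hβmin ⟨⟨hzq'.le, (sub z hz).2.le⟩, heq.symm⟩
        linarith [hz.2]
  have lims : Tendsto g (𝓝[<] β) (𝓝 0) ∧ Tendsto g1 (𝓝[<] β) (𝓝 0) ∧
      Tendsto (fun z => g z * g3 z) (𝓝[<] β) (𝓝 0) := by
    rcases hβz₀.lt_or_eq with hlt | heq
    · have hβI : β ∈ Ioo 0 z₀ := ⟨hzq.1.trans hqβ, hlt⟩
      have k0 : Tendsto g (𝓝 β) (𝓝 (g β)) := (d0 β hβI).continuousAt
      have k1 : Tendsto g1 (𝓝 β) (𝓝 (g1 β)) := (d1 β hβI).continuousAt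
      have k3 : Tendsto (fun z => g z * g3 z) (𝓝 β) (𝓝 (g β * g3 β)) :=
        (dH β hβI).continuousAt
      rw [hgβ] at k0
      rw [crit β hβI hgβ] at k1
      rw [hgβ, zero_mul] at k3
      exact ⟨k0.mono_left nhdsWithin_le_nhds, k1.mono_left nhdsWithin_le_nhds,
        k3.mono_left nhdsWithin_le_nhds⟩
    · rw [heq]
      exact ⟨h.contact, h.contact_angle, h.contact_flux⟩
  have hComp : Comp α β g g1 g2 g3 :=
    { hα := hα0
      hαβ := hαq.trans hqβ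
      d0 := fun z hz => d0 z (sub z hz)
      d1 := fun z hz => d1 z (sub z hz)
      d2 := fun z hz => d2 z (sub z hz)
      dH := fun z hz => dH z (sub z hz)
      pos := hpos
      l0 := lims.1
      l1 := lims.2.1
      l3 := lims.2.2 }
  exact hComp.false (c0.mono subc) (c1.mono subc) (c2.mono subc) (c3.mono subc) hαg1 hαg
    (fun hα => by rw [hα]; exact h.third_deriv_zero)

/-- The zero function is a classical solution, for the reader's convenience. -/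
lemma isClassicalSolution_of_eq_zero {z₀ : ℝ} (hz₀ : 0 < z₀) {g : ℝ → ℝ}
    (h : ∀ z ∈ Icc 0 z₀, g z = 0) : IsClassicalSolution z₀ g := by
  have hIco : ∀ z ∈ Ico 0 z₀, g z = 0 := fun z hz => h z ⟨hz.1, hz.2.le⟩
  have hEq : EqOn g (fun _ => (0 : ℝ)) (Ico 0 z₀) := fun z hz => hIco z hz
  have hflux : ∀ z ∈ Ioo 0 z₀, g z * iteratedDerivWithin 3 g (Ico 0 z₀) z = 0 := by
    intro z hz
    rw [hIco z ⟨hz.1.le, hz.2⟩, zero_mul]
  have hd : ∀ z ∈ Ico 0 z₀, derivWithin g (Ico 0 z₀) z = 0 := by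
    intro z hz
    rw [derivWithin_congr hEq (hIco z hz)]
    simp
  have evI : ∀ᶠ z in 𝓝[<] z₀, z ∈ Ioo 0 z₀ := Ioo_mem_nhdsLT hz₀
  refine ⟨fun z hz => (h z hz).ge, ?_, ?_, ?_, ?_, hd 0 ⟨le_refl _, hz₀⟩, ?_, ?_, ?_, ?_⟩
  · exact continuousOn_const.congr (fun z hz => h z hz)
  · exact contDiffOn_const.congr hEq
  · exact (contDiffOn_const (c := (0 : ℝ))).congr hflux
  · intro z hz
    have e : (fun y => g y * iteratedDerivWithin 3 g (Ico 0 z₀) y) =ᶠ[𝓝 z] fun _ => 0 := by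
      filter_upwards [Ioo_mem_nhds hz.1 hz.2] with y hy
      exact hflux y hy
    rw [e.deriv_eq, hIco z ⟨hz.1.le, hz.2⟩, hd z ⟨hz.1.le, hz.2⟩]
    simp
  · have := iteratedDerivWithin_congr (n := 3) hEq (⟨le_refl _, hz₀⟩ : (0 : ℝ) ∈ Ico 0 z₀)
    rw [this]
    simp
  · refine tendsto_const_nhds.congr' ?_
    filter_upwards [evI] with z hz
    exact (hIco z ⟨hz.1.le, hz.2⟩).symm
  · refine tendsto_const_nhds.congr' ?_
    filter_upwards [evI] with z hz
    exact (hd z ⟨hz.1.le, hz.2⟩).symm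
  · refine tendsto_const_nhds.congr' ?_
    filter_upwards [evI] with z hz
    exact (hflux z hz).symm

end Pool.Agent.Lib.ThinFilm
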